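import Mathlib

/-!
Linear systems behind the affine colourings of the cube: `V` is a finite set of directions, `A` a
matrix over `ZMod 2` with zero diagonal and zero row sums on `V`, `U` a space of vectors `u` with
`∑ x ∈ V, u x * A x y = 0`. For an order `p` of `V`, `FF V A p i` is the sum of `A i j` over the `j`
before `i`.
-/

set_option autoImplicit false
set_option linter.unusedSectionVars false

namespace Pool.Agent.AffGeo

open Finset

variable {α : Type*} [DecidableEq α]

/-- The weight of the pair `i, j` for the functional `u`. -/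
def bb (A : α → α → ZMod 2) (u : α → ZMod 2) (i j : α) : ZMod 2 := u i * A i j + u j * A j i

/-- Sum of `A i j` over the `j ∈ V` before `i`. -/
def FF (V : Finset α) (A : α → α → ZMod 2) (p : α → ℕ) (i : α) : ZMod 2 :=
  ∑ j ∈ V, if p j < p i then A i j else 0

/-- The defect of the order `p` at the functional `u`. -/
def DD (V : Finset α) (A : α → α → ZMod 2) (c : α → ZMod 2) (p : α → ℕ) (u : α → ZMod 2) :
    ZMod 2 :=
  ∑ i ∈ V, u i * (c i + FF V A p i)

/-- A pure system. -/
structure Sys (V : Finset α) (A : α → α → ZMod 2) (U : Submodule (ZMod 2) (α → ZMod 2)) :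
    Prop where
  diag : ∀ x ∈ V, A x x = 0
  row : ∀ x ∈ V, ∑ y ∈ V, A x y = 0
  col : ∀ u ∈ U, ∀ y ∈ V, ∑ x ∈ V, u x * A x y = 0

/-- `j` lies strictly between `x` and `y` in the order `q`. -/
def btw (q : α → ℕ) (x j y : α) : Prop := (q x < q j ∧ q j < q y) ∨ (q y < q j ∧ q j < q x)

instance (q : α → ℕ) (x j y : α) : Decidable (btw q x j y) := by
  unfold btw; infer_instance

lemma z2_cases (a : ZMod 2) : a = 0 ∨ a = 1 := by
  fin_cases a
  · left; rfl
  · right; rfl

lemma z2_ne_zero {a : ZMod 2} (h : a ≠ 0) : a = 1 := (z2_cases a).resolve_left h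

lemma z2_add_self (a : ZMod 2) : a + a = 0 := CharTwo.add_self_eq_zero a

lemma bb_comm (A : α → α → ZMod 2) (u : α → ZMod 2) (i j : α) : bb A u i j = bb A u j i := by
  unfold bb; rw [add_comm]

lemma bb_self (A : α → α → ZMod 2) (u : α → ZMod 2) (i : α) : bb A u i i = 0 := by
  unfold bb; exact z2_add_self _

lemma bb_add (A : α → α → ZMod 2) (u v : α → ZMod 2) (i j : α) :
    bb A (u + v) i j = bb A u i j + bb A v i j := by
  unfold bb; simp only [Pi.add_apply]; ring

lemma bb_smul (A : α → α → ZMod 2) (r : ZMod 2) (u : α → ZMod 2) (i j : α) :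
    bb A (r • u) i j = r * bb A u i j := by
  unfold bb; simp only [Pi.smul_apply, smul_eq_mul]; ring

lemma DD_add (V : Finset α) (A : α → α → ZMod 2) (c : α → ZMod 2) (p : α → ℕ)
    (u v : α → ZMod 2) : DD V A c p (u + v) = DD V A c p u + DD V A c p v := by
  unfold DD
  rw [← sum_add_distrib]
  refine sum_congr rfl fun i _ => ?_
  simp only [Pi.add_apply]; ring

lemma DD_smul (V : Finset α) (A : α → α → ZMod 2) (c : α → ZMod 2) (p : α → ℕ)
    (r : ZMod 2) (u : α → ZMod 2) : DD V A c p (r • u) = r * DD V A c p u := by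
  unfold DD
  rw [mul_sum]
  refine sum_congr rfl fun i _ => ?_
  simp only [Pi.smul_apply, smul_eq_mul]; ring

/-- The two orders `p, q` differ, at `u`, by the weights of the pairs they order differently. -/
lemma DD_diff (V : Finset α) (A : α → α → ZMod 2) (c : α → ZMod 2) (p q : α → ℕ)
    (hp : Set.InjOn p V) (hq : Set.InjOn q V) (u : α → ZMod 2) :
    DD V A c p u + DD V A c q u
      = ∑ i ∈ V, ∑ j ∈ V, if p j < p i ∧ q i < q j then bb A u i j else 0 := by
  have key : ∀ i ∈ V, ∀ j ∈ V,
      (if p j < p i then A i j else 0) + (if q j < q i then A i j else 0)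
        = (if p j < p i ∧ q i < q j then A i j else 0)
          + (if q j < q i ∧ p i < p j then A i j else 0) := by
    intro i hi j hj
    by_cases hij : i = j
    · subst hij; simp
    · have h1 : p i ≠ p j := fun h => hij (hp hi hj h)
      have h2 : q i ≠ q j := fun h => hij (hq hi hj h)
      rcases lt_or_gt_of_ne h1 with h1 | h1 <;> rcases lt_or_gt_of_ne h2 with h2 | h2
      · simp [h1, h2, not_lt.mpr h1.le, not_lt.mpr h2.le]
      · simp [h1, h2, not_lt.mpr h1.le, not_lt.mpr h2.le]
      · simp [h1, h2, not_lt.mpr h1.le, not_lt.mpr h2.le]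
      · simp [h1, h2, not_lt.mpr h1.le, not_lt.mpr h2.le, z2_add_self]
  have e1 : DD V A c p u + DD V A c q u
      = ∑ i ∈ V, ∑ j ∈ V, ((if p j < p i ∧ q i < q j then u i * A i j else 0)
          + (if q j < q i ∧ p i < p j then u i * A i j else 0)) := by
    unfold DD FF
    rw [← sum_add_distrib]
    refine sum_congr rfl fun i hi => ?_
    have : u i * (c i + ∑ j ∈ V, if p j < p i then A i j else 0)
        + u i * (c i + ∑ j ∈ V, if q j < q i then A i j else 0)
        = (u i * c i + u i * c i) + u i * ∑ j ∈ V, ((if p j < p i then A i j else 0)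
            + (if q j < q i then A i j else 0)) := by
      rw [sum_add_distrib]; ring
    rw [this, z2_add_self, zero_add, mul_sum]
    refine sum_congr rfl fun j hj => ?_
    rw [key i hi j hj, mul_add]
    congr 1 <;> split_ifs <;> simp
  rw [e1]
  have e2 : ∑ i ∈ V, ∑ j ∈ V, ((if p j < p i ∧ q i < q j then u i * A i j else 0)
          + (if q j < q i ∧ p i < p j then u i * A i j else 0))
      = (∑ i ∈ V, ∑ j ∈ V, if p j < p i ∧ q i < q j then u i * A i j else 0)
        + ∑ i ∈ V, ∑ j ∈ V, if q j < q i ∧ p i < p j then u i * A i j else 0 := by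
    simp only [sum_add_distrib]
  rw [e2, sum_comm (s := V) (t := V)
    (f := fun i j => if q j < q i ∧ p i < p j then u i * A i j else 0), ← sum_add_distrib]
  refine sum_congr rfl fun i _ => ?_
  rw [← sum_add_distrib]
  refine sum_congr rfl fun j _ => ?_
  by_cases h : p j < p i ∧ q i < q j
  · rw [if_pos h, if_pos h.symm, if_pos h]; rfl
  · rw [if_neg h, if_neg (fun h' => h h'.symm), if_neg h, add_zero]

lemma bb_row {V : Finset α} {A : α → α → ZMod 2} {U : Submodule (ZMod 2) (α → ZMod 2)}
    (hS : Sys V A U) {u : α → ZMod 2} (hu : u ∈ U) {x : α} (hx : x ∈ V) :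
    ∑ j ∈ V, bb A u x j = 0 := by
  unfold bb
  rw [sum_add_distrib, ← mul_sum, hS.row x hx, hS.col u hu x hx]; simp

/-- Any order can be rotated so that a given element comes first. -/
lemma exists_rotate {V : Finset α} {A : α → α → ZMod 2} {U : Submodule (ZMod 2) (α → ZMod 2)}
    (hS : Sys V A U) (c : α → ZMod 2) (p : α → ℕ) (hp : Set.InjOn p V) {x : α} (hx : x ∈ V) :
    ∃ q : α → ℕ, Set.InjOn q V ∧ (∀ j ∈ V, j ≠ x → q x < q j) ∧
      ∀ u ∈ U, DD V A c q u = DD V A c p u := by
  set K : ℕ := V.sup p + 1 with hK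
  have hKp : ∀ i ∈ V, p i < K := fun i hi => Nat.lt_succ_of_le (le_sup hi)
  let q : α → ℕ := fun j => if p j < p x then p j + K else p j
  have hq1 : ∀ j, p j < p x → q j = p j + K := fun j h => by simp only [q]; rw [if_pos h]
  have hq2 : ∀ j, ¬ p j < p x → q j = p j := fun j h => by simp only [q]; rw [if_neg h]
  have hqx : q x = p x := hq2 x (lt_irrefl _)
  have hqinj : Set.InjOn q V := by
    intro i hi j hj hij
    by_cases h1 : p i < p x <;> by_cases h2 : p j < p x
    · rw [hq1 i h1, hq1 j h2] at hij; exact hp hi hj (by omega)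
    · rw [hq1 i h1, hq2 j h2] at hij; have := hKp j hj; omega
    · rw [hq2 i h1, hq1 j h2] at hij; have := hKp i hi; omega
    · rw [hq2 i h1, hq2 j h2] at hij; exact hp hi hj hij
  refine ⟨q, hqinj, ?_, ?_⟩
  · intro j hj hjx
    rw [hqx]
    by_cases h : p j < p x
    · rw [hq1 j h]; have := hKp x hx; omega
    · rw [hq2 j h]
      have : p j ≠ p x := fun h' => hjx (hp hj hx h')
      omega
  · intro u hu
    have hd := DD_diff V A c p q hp hqinj u
    have hz : ∑ i ∈ V, ∑ j ∈ V, (if p j < p i ∧ q i < q j then bb A u i j else 0) = 0 := by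
      have e1 : ∀ i ∈ V, ∀ j ∈ V, (if p j < p i ∧ q i < q j then bb A u i j else 0)
          = if ¬ p i < p x then (if p j < p x then bb A u i j else 0) else 0 := by
        intro i hi j hj
        by_cases h1 : p i < p x <;> by_cases h2 : p j < p x
        · rw [hq1 i h1, hq1 j h2, if_neg (by omega), if_neg (by simpa using h1)]
        · rw [hq1 i h1, hq2 j h2, if_neg (by omega), if_neg (by simpa using h1)]
        · rw [hq2 i h1, hq1 j h2]
          have := hKp i hi
          rw [if_pos (by omega), if_pos h1, if_pos h2]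
        · rw [hq2 i h1, hq2 j h2, if_neg (by omega), if_pos h1, if_neg h2]
      rw [sum_congr rfl (fun i hi => sum_congr rfl (e1 i hi))]
      have e2 : ∑ i ∈ V, ∑ j ∈ V, (if ¬ p i < p x then (if p j < p x then bb A u i j else 0) else 0)
          = ∑ i ∈ V with ¬ p i < p x, ∑ j ∈ V with p j < p x, bb A u i j := by
        rw [sum_filter]
        refine sum_congr rfl fun i _ => ?_
        rw [sum_filter]
        by_cases h1 : p i < p x
        · simp [h1]
        · simp [h1]
      rw [e2]
      have e3 : ∑ i ∈ V with p i < p x, ∑ j ∈ V with p j < p x, bb A u i j = 0 := by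
        unfold bb
        simp only [sum_add_distrib]
        rw [sum_comm (f := fun i j => u j * A j i)]
        exact z2_add_self _
      have e4 : ∑ i ∈ V, ∑ j ∈ V with p j < p x, bb A u i j = 0 := by
        rw [sum_comm]
        refine sum_eq_zero fun j hj => ?_
        rw [mem_filter] at hj
        simp only [bb_comm A u _ j]
        exact bb_row hS hu hj.1
      have e5 := sum_filter_add_sum_filter_not V (fun i => p i < p x)
        (fun i => ∑ j ∈ V with p j < p x, bb A u i j)
      rw [e4, e3, zero_add] at e5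
      exact e5
    rw [hz] at hd
    exact (CharTwo.add_eq_zero.mp hd).symm

end Pool.Agent.AffGeo
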