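import Pool.Agent.Lib_MP_801c1a_aff.Basic

/-!
Contraction of a pair `x, y` with `A y x = 1`: the vertex `y` is merged into `x`.
-/

set_option autoImplicit false
set_option linter.unusedSectionVars false

namespace Pool.Agent.AffGeo

open Finset

variable {α : Type*} [DecidableEq α]

/-- The contracted matrix. -/
def cA (A : α → α → ZMod 2) (x y : α) (i j : α) : ZMod 2 :=
  if i = x then (if j = x then 0 else A x j + A x y * A y j)
  else (if j = x then A i x + A i y else A i j)

/-- The contracted right-hand side. -/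
def cc (A : α → α → ZMod 2) (c : α → ZMod 2) (x y : α) (i : α) : ZMod 2 :=
  if i = x then c x + A x y * c y + A x y else c i

/-- The functionals with weight `0` at the pair. -/
def cU (A : α → α → ZMod 2) (U : Submodule (ZMod 2) (α → ZMod 2)) (x y : α) :
    Submodule (ZMod 2) (α → ZMod 2) where
  carrier := {u | u ∈ U ∧ u y = A x y * u x}
  add_mem' := by
    rintro u v ⟨hu, hu'⟩ ⟨hv, hv'⟩
    refine ⟨U.add_mem hu hv, ?_⟩
    simp only [Pi.add_apply, hu', hv']; ring
  zero_mem' := by
    refine ⟨U.zero_mem, ?_⟩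
    simp
  smul_mem' := by
    rintro r u ⟨hu, hu'⟩
    refine ⟨U.smul_mem r hu, ?_⟩
    simp only [Pi.smul_apply, smul_eq_mul, hu']; ring

lemma mem_cU {A : α → α → ZMod 2} {U : Submodule (ZMod 2) (α → ZMod 2)} {x y : α}
    {u : α → ZMod 2} : u ∈ cU A U x y ↔ u ∈ U ∧ u y = A x y * u x := Iff.rfl

lemma cU_le (A : α → α → ZMod 2) (U : Submodule (ZMod 2) (α → ZMod 2)) (x y : α) :
    cU A U x y ≤ U := fun _ h => h.1

lemma sum_split {M : Type*} [AddCommMonoid M] {V : Finset α} {x y : α} (hx : x ∈ V) (hy : y ∈ V)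
    (hxy : x ≠ y) (f : α → M) :
    ∑ i ∈ V, f i = f y + (f x + ∑ i ∈ (V.erase y).erase x, f i) := by
  rw [add_sum_erase (V.erase y) f (mem_erase.mpr ⟨hxy, hx⟩), add_sum_erase V f hy]

lemma sum_split' {M : Type*} [AddCommMonoid M] {V : Finset α} {x y : α} (hx : x ∈ V)
    (hxy : x ≠ y) (f : α → M) :
    ∑ i ∈ V.erase y, f i = f x + ∑ i ∈ (V.erase y).erase x, f i := by
  rw [add_sum_erase (V.erase y) f (mem_erase.mpr ⟨hxy, hx⟩)]

lemma mem_V0 {V : Finset α} {x y i : α} :
    i ∈ (V.erase y).erase x ↔ i ≠ x ∧ i ≠ y ∧ i ∈ V := by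
  rw [mem_erase, mem_erase]

lemma cA_x {A : α → α → ZMod 2} {x y j : α} (hj : j ≠ x) :
    cA A x y x j = A x j + A x y * A y j := by
  unfold cA; rw [if_pos rfl, if_neg hj]

lemma cA_xx {A : α → α → ZMod 2} {x y : α} : cA A x y x x = 0 := by
  unfold cA; rw [if_pos rfl, if_pos rfl]

lemma cA_ix {A : α → α → ZMod 2} {x y i : α} (hi : i ≠ x) :
    cA A x y i x = A i x + A i y := by
  unfold cA; rw [if_neg hi, if_pos rfl]

lemma cA_ij {A : α → α → ZMod 2} {x y i j : α} (hi : i ≠ x) (hj : j ≠ x) :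
    cA A x y i j = A i j := by
  unfold cA; rw [if_neg hi, if_neg hj]

/-- The contracted system is again a system. -/
lemma Sys.contract {V : Finset α} {A : α → α → ZMod 2} {U : Submodule (ZMod 2) (α → ZMod 2)}
    (hS : Sys V A U) {x y : α} (hx : x ∈ V) (hy : y ∈ V) (hxy : x ≠ y) (hA : A y x = 1) :
    Sys (V.erase y) (cA A x y) (cU A U x y) := by
  refine ⟨?_, ?_, ?_⟩
  · intro i hi
    by_cases h : i = x
    · subst h; exact cA_xx
    · rw [cA_ij h h]; exact hS.diag i (mem_of_mem_erase hi)
  · intro i hi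
    rw [sum_split' hx hxy]
    by_cases h : i = x
    · subst h
      rw [cA_xx, zero_add]
      have e1 : ∑ j ∈ (V.erase y).erase i, cA A i y i j
          = ∑ j ∈ (V.erase y).erase i, (A i j + A i y * A y j) :=
        sum_congr rfl fun j hj => cA_x (mem_V0.mp hj).1
      rw [e1, sum_add_distrib, ← mul_sum]
      have r1 := hS.row i hx
      have r2 := hS.row y hy
      rw [sum_split hx hy hxy, hS.diag i hx, zero_add] at r1
      rw [sum_split hx hy hxy, hS.diag y hy, zero_add, hA] at r2
      have r1' := CharTwo.add_eq_zero.mp r1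
      have r2' := CharTwo.add_eq_zero.mp r2
      rw [← r1', ← r2', mul_one]
      exact z2_add_self _
    · rw [cA_ix h]
      have e1 : ∑ j ∈ (V.erase y).erase x, cA A x y i j = ∑ j ∈ (V.erase y).erase x, A i j :=
        sum_congr rfl fun j hj => cA_ij h (mem_V0.mp hj).1
      rw [e1]
      have r1 := hS.row i (mem_of_mem_erase hi)
      rw [sum_split hx hy hxy] at r1
      rw [← r1]; ring
  · rintro u ⟨hu, huy⟩ j hj
    rw [sum_split' hx hxy]
    by_cases h : j = x
    · subst h
      rw [cA_xx, mul_zero, zero_add]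
      have e1 : ∑ i ∈ (V.erase y).erase j, u i * cA A j y i j
          = ∑ i ∈ (V.erase y).erase j, u i * A i j + ∑ i ∈ (V.erase y).erase j, u i * A i y := by
        rw [← sum_add_distrib]
        refine sum_congr rfl fun i hi => ?_
        rw [cA_ix (mem_V0.mp hi).1]; ring
      rw [e1]
      have c1 := hS.col u hu j hx
      have c2 := hS.col u hu y hy
      rw [sum_split hx hy hxy, hS.diag j hx, mul_zero, zero_add, hA, mul_one] at c1
      rw [sum_split hx hy hxy, hS.diag y hy, mul_zero, zero_add] at c2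
      have c1' := CharTwo.add_eq_zero.mp c1
      have c2' := CharTwo.add_eq_zero.mp c2
      rw [← c1', ← c2', huy, mul_comm]
      exact z2_add_self _
    · rw [cA_x h]
      have e1 : ∑ i ∈ (V.erase y).erase x, u i * cA A x y i j
          = ∑ i ∈ (V.erase y).erase x, u i * A i j := by
        refine sum_congr rfl fun i hi => ?_
        rw [cA_ij (mem_V0.mp hi).1 h]
      rw [e1]
      have c1 := hS.col u hu j (mem_of_mem_erase hj)
      rw [sum_split hx hy hxy, huy] at c1
      rw [← c1]; ring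

/-- Weights in the contracted system. -/
lemma bb_contract_ij {A : α → α → ZMod 2} {x y i j : α} (u : α → ZMod 2) (hi : i ≠ x)
    (hj : j ≠ x) : bb (cA A x y) u i j = bb A u i j := by
  unfold bb; rw [cA_ij hi hj, cA_ij hj hi]

lemma bb_contract_x {A : α → α → ZMod 2} {x y j : α} {u : α → ZMod 2}
    (huy : u y = A x y * u x) (hj : j ≠ x) :
    bb (cA A x y) u x j = bb A u x j + bb A u y j := by
  unfold bb; rw [cA_x hj, cA_ix hj, huy]; ring

/-- The order of `V` obtained from an order of `V.erase y` by inserting `y` right after `x`. -/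
def ins (p : α → ℕ) (x y : α) (j : α) : ℕ := if j = y then 2 * p x + 1 else 2 * p j

lemma ins_y {p : α → ℕ} {x y : α} : ins p x y y = 2 * p x + 1 := by
  unfold ins; rw [if_pos rfl]

lemma ins_ne {p : α → ℕ} {x y j : α} (h : j ≠ y) : ins p x y j = 2 * p j := by
  unfold ins; rw [if_neg h]

lemma ins_injOn {V : Finset α} {p : α → ℕ} {x y : α}
    (hp : Set.InjOn p (V.erase y : Finset α)) : Set.InjOn (ins p x y) V := by
  intro i hi j hj hij
  by_cases h1 : i = y <;> by_cases h2 : j = y
  · rw [h1, h2]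
  · rw [h1, ins_y, ins_ne h2] at hij; omega
  · rw [h2, ins_y, ins_ne h1] at hij; omega
  · rw [ins_ne h1, ins_ne h2] at hij
    exact hp (mem_coe.mpr (mem_erase.mpr ⟨h1, hi⟩)) (mem_coe.mpr (mem_erase.mpr ⟨h2, hj⟩))
      (by omega)

/-- The defect of the inserted order. -/
lemma DD_ins {V : Finset α} {A : α → α → ZMod 2}
    {x y : α} (hx : x ∈ V) (hy : y ∈ V) (hxy : x ≠ y) (hA : A y x = 1)
    (c : α → ZMod 2) {p : α → ℕ} (hp : Set.InjOn p (V.erase y : Finset α))
    {u : α → ZMod 2} (huy : u y = A x y * u x) :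
    DD V A c (ins p x y) u = DD (V.erase y) (cA A x y) (cc A c x y) p u := by
  have hxV : x ∈ ((V.erase y : Finset α) : Set α) := mem_coe.mpr (mem_erase.mpr ⟨hxy, hx⟩)
  unfold DD
  rw [sum_split hx hy hxy, sum_split' hx hxy]
  have e1 : ∀ i ∈ (V.erase y).erase x,
      u i * (c i + FF V A (ins p x y) i) = u i * (cc A c x y i + FF (V.erase y) (cA A x y) p i) := by
    intro i hi
    obtain ⟨hix, hiy, hiV⟩ := mem_V0.mp hi
    unfold FF cc
    rw [if_neg hix, sum_split hx hy hxy, sum_split' hx hxy, ins_y, ins_ne hiy, ins_ne hxy]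
    have f1 : ∀ j ∈ (V.erase y).erase x, (if ins p x y j < 2 * p i then A i j else 0)
        = if p j < p i then cA A x y i j else 0 := by
      intro j hj
      obtain ⟨hjx, hjy, _⟩ := mem_V0.mp hj
      rw [ins_ne hjy, cA_ij hix hjx]
      by_cases h : p j < p i
      · rw [if_pos h, if_pos (by omega)]
      · rw [if_neg h, if_neg (by omega)]
    rw [sum_congr rfl f1, cA_ix hix]
    by_cases h : p x < p i
    · rw [if_pos (by omega : 2 * p x + 1 < 2 * p i), if_pos (by omega : 2 * p x < 2 * p i), if_pos h]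
      ring
    · rw [if_neg (by omega : ¬ 2 * p x + 1 < 2 * p i), if_neg (by omega : ¬ 2 * p x < 2 * p i),
        if_neg h]
      ring
  rw [sum_congr rfl e1, ← add_assoc]
  congr 1
  have g1 : FF V A (ins p x y) x = ∑ j ∈ (V.erase y).erase x, if p j < p x then A x j else 0 := by
    unfold FF
    rw [sum_split hx hy hxy, ins_y, ins_ne hxy, if_neg (by omega), if_neg (by omega), zero_add,
      zero_add]
    refine sum_congr rfl fun j hj => ?_
    obtain ⟨hjx, hjy, _⟩ := mem_V0.mp hj
    rw [ins_ne hjy]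
    by_cases h : p j < p x
    · rw [if_pos h, if_pos (by omega)]
    · rw [if_neg h, if_neg (by omega)]
  have g2 : FF V A (ins p x y) y
      = 1 + ∑ j ∈ (V.erase y).erase x, if p j < p x then A y j else 0 := by
    unfold FF
    rw [sum_split hx hy hxy, ins_y, ins_ne hxy, if_neg (by omega), if_pos (by omega), zero_add, hA]
    congr 1
    refine sum_congr rfl fun j hj => ?_
    obtain ⟨hjx, hjy, hjV⟩ := mem_V0.mp hj
    rw [ins_ne hjy]
    have hne : p j ≠ p x := fun h =>
      hjx (hp (mem_coe.mpr (mem_erase.mpr ⟨hjy, hjV⟩)) hxV h)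
    by_cases h : p j < p x
    · rw [if_pos h, if_pos (by omega)]
    · rw [if_neg h, if_neg (by omega)]
  have g3 : FF (V.erase y) (cA A x y) p x
      = ∑ j ∈ (V.erase y).erase x, (if p j < p x then A x j else 0)
        + A x y * ∑ j ∈ (V.erase y).erase x, (if p j < p x then A y j else 0) := by
    unfold FF
    rw [sum_split' hx hxy, if_neg (lt_irrefl _), zero_add, mul_sum, ← sum_add_distrib]
    refine sum_congr rfl fun j hj => ?_
    obtain ⟨hjx, hjy, _⟩ := mem_V0.mp hj
    rw [cA_x hjx]
    by_cases h : p j < p x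
    · rw [if_pos h, if_pos h, if_pos h]
    · rw [if_neg h, if_neg h, if_neg h]; ring
  rw [g1, g2, g3, huy]
  unfold cc
  rw [if_pos rfl]
  ring

end Pool.Agent.AffGeo
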