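import Pool.Agent.Lib_MP_801c1a_aff.Obs

/-!
The last step: a system whose weights are those of the even cuts of a complete graph on at least
four vertices has a contradiction with its row sums.
-/

set_option autoImplicit false
set_option linter.unusedSectionVars false

namespace Pool.Agent.AffGeo

open Finset

variable {α : Type*} [DecidableEq α]

lemma final_contra (B : Finset α) (A : α → α → ZMod 2) (U : Submodule (ZMod 2) (α → ZMod 2))
    (hdiag : ∀ x ∈ B, A x x = 0) (hrow : ∀ x ∈ B, ∑ y ∈ B, A x y = 0)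
    (hcomp : ∀ x ∈ B, ∀ y ∈ B, x ≠ y → ∃ u ∈ U, bb A u x y = 1)
    (hT : ∀ u ∈ U, ∀ a ∈ B, ∀ b ∈ B, ∀ c ∈ B, a ≠ b → b ≠ c → a ≠ c →
      bb A u a b + bb A u b c + bb A u a c = 0)
    (heven : Even B.card) (h4 : 4 ≤ B.card) : False := by
  classical
  have h1 : ∀ x ∈ B, ∃ y ∈ B, y ≠ x ∧ A x y = 0 := by
    intro x hx
    by_contra hcon
    push Not at hcon
    have e : ∑ y ∈ B, A x y = ∑ y ∈ B.erase x, (1 : ZMod 2) := by
      rw [← add_sum_erase B _ hx, hdiag x hx, zero_add]
      refine sum_congr rfl fun y hy => ?_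
      rw [mem_erase] at hy
      exact z2_ne_zero (hcon y hy.2 hy.1)
    rw [hrow x hx, sum_const, card_erase_of_mem hx, nsmul_eq_mul, mul_one] at e
    obtain ⟨k, hk⟩ := heven
    have : B.card - 1 = 2 * (k - 1) + 1 := by omega
    rw [this] at e
    push_cast at e
    have h2 : (2 : ZMod 2) = 0 := by decide
    rw [h2, zero_mul, zero_add] at e
    exact absurd e (by decide)
  have hback : ∀ x ∈ B, ∀ y ∈ B, x ≠ y → A x y = 0 → A y x = 1 := by
    intro x hx y hy hxy h
    obtain ⟨u, _, hb⟩ := hcomp x hx y hy hxy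
    rcases z2_cases (A y x) with h' | h'
    · unfold bb at hb; rw [h, h'] at hb; simp at hb
    · exact h'
  have hval : ∀ x ∈ B, ∀ y ∈ B, x ≠ y → A x y = 0 → ∀ u : α → ZMod 2, bb A u x y = u y := by
    intro x hx y hy hxy h u
    unfold bb; rw [h, hback x hx y hy hxy h]; simp
  have h2 : ∀ x ∈ B, ∀ x' ∈ B, ∀ y ∈ B, x ≠ y → x' ≠ y → A x y = 0 → A x' y = 0 → x = x' := by
    intro x hx x' hx' y hy hxy hxy' h h'
    by_contra hne
    obtain ⟨u, hu, hb⟩ := hcomp x hx x' hx' hne
    have := hT u hu x hx y hy x' hx' hxy hxy'.symm hne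
    rw [hval x hx y hy hxy h u, bb_comm A u y x', hval x' hx' y hy hxy' h' u, z2_add_self,
      zero_add, hb] at this
    exact absurd this (by decide)
  choose! g hgB hgne hgA using h1
  have hinj : ∀ x ∈ B, ∀ x' ∈ B, g x = g x' → x = x' := by
    intro x hx x' hx' h
    refine h2 x hx x' hx' (g x) (hgB x hx) (hgne x hx).symm ?_ (hgA x hx) ?_
    · rw [h]; exact (hgne x' hx').symm
    · rw [h]; exact hgA x' hx'
  have hsurj : ∀ y ∈ B, ∃ x ∈ B, g x = y := by
    have himg : B.image g = B := by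
      refine eq_of_subset_of_card_le ?_ ?_
      · intro y hy
        obtain ⟨x, hx, rfl⟩ := mem_image.mp hy
        exact hgB x hx
      · rw [card_image_of_injOn (fun x hx x' hx' h => hinj x hx x' hx' h)]
    intro y hy
    rw [← himg] at hy
    obtain ⟨x, hx, hxy⟩ := mem_image.mp hy
    exact ⟨x, hx, hxy⟩
  have hone : ∀ x ∈ B, ∀ y ∈ B, x ≠ y → y ≠ g x → A x y = 1 := by
    intro x hx y hy hxy hne
    refine z2_ne_zero fun h => hne ?_
    obtain ⟨x', hx', hgx⟩ := hsurj y hy
    have : x = x' := h2 x hx x' hx' y hy hxy (hgx ▸ (hgne x' hx').symm) h (hgx ▸ hgA x' hx')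
    rw [this, hgx]
  obtain ⟨x, hx⟩ : B.Nonempty := card_pos.mp (by omega)
  obtain ⟨y, hyg⟩ : ∃ y, y = g x := ⟨_, rfl⟩
  obtain ⟨z, hzg⟩ : ∃ z, z = g y := ⟨_, rfl⟩
  have hy : y ∈ B := hyg ▸ hgB x hx
  have hz : z ∈ B := hzg ▸ hgB y hy
  have hyx : y ≠ x := hyg ▸ hgne x hx
  have hzy : z ≠ y := hzg ▸ hgne y hy
  have hAxy : A x y = 0 := hyg ▸ hgA x hx
  have hAyz : A y z = 0 := hzg ▸ hgA y hy
  have hzx : z ≠ x := by
    intro h
    have := hback x hx y hy hyx.symm hAxy
    rw [h] at hAyz
    rw [this] at hAyz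
    exact absurd hAyz (by decide)
  have hAxz : A x z = 1 := hone x hx z hz hzx.symm (hyg ▸ hzy)
  by_cases hxg : x = g z
  · obtain ⟨t, htB, htx, hty, htz⟩ : ∃ t ∈ B, t ≠ x ∧ t ≠ y ∧ t ≠ z := by
      by_contra hcon
      push Not at hcon
      have hsub : B ⊆ {x, y, z} := by
        intro t ht
        simp only [mem_insert, mem_singleton]
        by_contra h
        push Not at h
        exact h.2.2 (hcon t ht h.1 h.2.1)
      have := card_le_card hsub
      have h3 : ({x, y, z} : Finset α).card ≤ 3 := card_le_three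
      omega
    have a1 : A x t = 1 := hone x hx t htB htx.symm (hyg ▸ hty)
    have a2 : A t x = 1 := hone t htB x hx htx (fun h => htz (hinj t htB z hz (h ▸ hxg)))
    have a3 : A y t = 1 := hone y hy t htB hty.symm (hzg ▸ htz)
    have a4 : A t y = 1 := hone t htB y hy hty (fun h => htx (hinj t htB x hx (h ▸ hyg)))
    have hAzx : A z x = 0 := by
      have := hgA z hz
      rw [← hxg] at this
      exact this
    obtain ⟨u, hu, hb⟩ := hcomp z hz x hx hzx
    rw [hval z hz x hx hzx hAzx u] at hb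
    have := hT u hu x hx y hy t htB hyx.symm hty.symm htx.symm
    rw [hval x hx y hy hyx.symm hAxy u] at this
    unfold bb at this
    rw [a1, a2, a3, a4, hb] at this
    have e : u y + (u y * 1 + u t * 1) + (1 * 1 + u t * 1) = (u y + u y) + (u t + u t) + 1 := by
      ring
    rw [e, z2_add_self, z2_add_self] at this
    exact absurd this (by decide)
  · have hAzx : A z x = 1 := hone z hz x hx hzx hxg
    have hequ : ∀ u ∈ U, u x + u y = 0 := by
      intro u hu
      have := hT u hu x hx y hy z hz hyx.symm hzy.symm hzx.symm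
      rw [hval x hx y hy hyx.symm hAxy u, hval y hy z hz hzy.symm hAyz u] at this
      unfold bb at this
      rw [hAxz, hAzx] at this
      have e : u y + u z + (u x * 1 + u z * 1) = (u x + u y) + (u z + u z) := by ring
      rw [e, z2_add_self, add_zero] at this
      exact this
    obtain ⟨s, hs, hsg⟩ := hsurj x hx
    have hsx : s ≠ x := by
      intro h; have := hgne s hs; rw [hsg, h] at this; exact this rfl
    have hsy : s ≠ y := by
      intro h; rw [h, ← hzg] at hsg; exact hzx hsg
    have hAsx : A s x = 0 := hsg ▸ hgA s hs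
    obtain ⟨u, hu, hb⟩ := hcomp s hs y hy hsy
    have := hT u hu s hs x hx y hy hsx hyx.symm hsy
    rw [hval s hs x hx hsx hAsx u, hval x hx y hy hyx.symm hAxy u, hequ u hu, hb] at this
    exact absurd this (by decide)

end Pool.Agent.AffGeo
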