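import Pool.Agent.Lib_MP_801c1a_aff.Mono

/-!
Affine colourings: an antipodal geodesic with at most one colour change exists.
-/

set_option autoImplicit false
set_option linter.unusedSectionVars false

namespace Pool.Agent.AffGeo

open Finset

/-- The colour (in `ZMod 2`) of the edge in direction `i` of the geodesic that starts at `x` and
uses the directions of `D` in the order `p`. -/
def col {β : Type*} (D : Finset β) (A : β → β → ZMod 2) (s : β → ZMod 2) (p : β → ℕ)
    (x : β → ZMod 2) (i : β) : ZMod 2 :=
  s i + ∑ j ∈ D, A i j * x j + FF D A p i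

theorem geo {β : Type*} [DecidableEq β] [Fintype β] (A : β → β → ZMod 2) (s : β → ZMod 2)
    (hdiag : ∀ x, A x x = 0) : ∀ D : Finset β,
    ∃ p : β → ℕ, Set.InjOn p D ∧ ∃ x : β → ZMod 2, ∃ t : ℕ, ∃ a b : ZMod 2,
      ∀ i ∈ D, col D A s p x i = if p i < t then a else b := by
  classical
  intro D
  induction D using Finset.strongInduction with
  | _ D IH =>
  by_cases hodd : ∀ x ∈ D, ∑ y ∈ D, A x y = 1
  · obtain ⟨p, hp, x, hx⟩ := mono D A (fun x _ => hdiag x) hodd s
    refine ⟨p, hp, x, 0, 0, 0, fun i hi => ?_⟩
    unfold col
    rw [hx i hi]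
    have h1 : s i + (s i + FF D A p i) + FF D A p i
        = (s i + s i) + (FF D A p i + FF D A p i) := by ring
    rw [h1, z2_add_self, z2_add_self]
    simp
  · push Not at hodd
    obtain ⟨i, hi, hri⟩ := hodd
    have hri0 : ∑ y ∈ D, A i y = 0 := (z2_cases _).resolve_right hri
    obtain ⟨p, hp, x, t, a, b, h⟩ := IH (D.erase i) (erase_ssubset hi)
    -- the sum over D' of A i
    have hri' : ∑ y ∈ D.erase i, A i y = 0 := by
      rw [← add_sum_erase D _ hi, hdiag, zero_add] at hri0
      exact hri0
    set e : ZMod 2 := s i + ∑ j ∈ D.erase i, A i j * x j with he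
    set K : ℕ := (D.erase i).sup p + t + 1 with hK
    have hKp : ∀ j ∈ D.erase i, p j < K := fun j hj => by
      have : p j ≤ (D.erase i).sup p := le_sup hj
      omega
    -- option 1: `i` comes last
    let p1 : β → ℕ := fun j => if j = i then K else p j
    let x1 : β → ZMod 2 := fun j => if j = i then 0 else x j
    have hp1i : p1 i = K := by simp [p1]
    have hp1 : ∀ j ∈ D.erase i, p1 j = p j := fun j hj => by
      simp only [p1]; rw [if_neg (ne_of_mem_erase hj)]
    have hx1i : x1 i = 0 := by simp [x1]
    have hx1 : ∀ j ∈ D.erase i, x1 j = x j := fun j hj => by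
      simp only [x1]; rw [if_neg (ne_of_mem_erase hj)]
    have hinj1 : Set.InjOn p1 D := by
      intro u hu v hv huv
      by_cases h1 : u = i <;> by_cases h2 : v = i
      · rw [h1, h2]
      · have hv' : v ∈ D.erase i := mem_erase.mpr ⟨h2, hv⟩
        rw [h1, hp1i, hp1 v hv'] at huv
        exact absurd huv (hKp v hv').ne'
      · have hu' : u ∈ D.erase i := mem_erase.mpr ⟨h1, hu⟩
        rw [h2, hp1i, hp1 u hu'] at huv
        exact absurd huv (hKp u hu').ne
      · have hv' : v ∈ D.erase i := mem_erase.mpr ⟨h2, hv⟩
        have hu' : u ∈ D.erase i := mem_erase.mpr ⟨h1, hu⟩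
        rw [hp1 u hu', hp1 v hv'] at huv
        exact hp (by exact_mod_cast hu') (by exact_mod_cast hv') huv
    have hc1 : ∀ j ∈ D.erase i, col D A s p1 x1 j = col (D.erase i) A s p x j := by
      intro j hj
      unfold col FF
      rw [← add_sum_erase D _ hi, ← add_sum_erase D _ hi, hx1i, mul_zero, zero_add, hp1i,
        hp1 j hj, if_neg (not_lt.mpr (hKp j hj).le), zero_add]
      congr 1
      · congr 1
        exact sum_congr rfl fun k hk => by rw [hx1 k hk]
      · exact sum_congr rfl fun k hk => by rw [hp1 k hk]
    have hc1i : col D A s p1 x1 i = e := by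
      unfold col FF
      rw [← add_sum_erase D _ hi, ← add_sum_erase D _ hi, hx1i, mul_zero, zero_add, hp1i,
        if_neg (lt_irrefl _), zero_add]
      have h1 : ∑ k ∈ D.erase i, (if p1 k < K then A i k else 0) = 0 := by
        rw [← hri']
        exact sum_congr rfl fun k hk => by rw [hp1 k hk, if_pos (hKp k hk)]
      rw [h1, add_zero, he]
      congr 1
      exact sum_congr rfl fun k hk => by rw [hx1 k hk]
    by_cases heb : e = b
    · refine ⟨p1, hinj1, x1, t, a, b, fun j hj => ?_⟩
      by_cases hji : j = i
      · rw [hji, hc1i, hp1i, if_neg (by omega), heb]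
      · have hj' : j ∈ D.erase i := mem_erase.mpr ⟨hji, hj⟩
        rw [hc1 j hj', hp1 j hj']
        exact h j hj'
    · by_cases hea : e = a
      · -- option 2: `i` comes first, from the other side
        let p2 : β → ℕ := fun j => if j = i then 0 else p j + 1
        let x2 : β → ZMod 2 := fun j => if j = i then 1 else x j
        have hp2i : p2 i = 0 := by simp [p2]
        have hp2 : ∀ j ∈ D.erase i, p2 j = p j + 1 := fun j hj => by
          simp only [p2]; rw [if_neg (ne_of_mem_erase hj)]
        have hx2i : x2 i = 1 := by simp [x2]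
        have hx2 : ∀ j ∈ D.erase i, x2 j = x j := fun j hj => by
          simp only [x2]; rw [if_neg (ne_of_mem_erase hj)]
        have hinj2 : Set.InjOn p2 D := by
          intro u hu v hv huv
          by_cases h1 : u = i <;> by_cases h2 : v = i
          · rw [h1, h2]
          · have hv' : v ∈ D.erase i := mem_erase.mpr ⟨h2, hv⟩
            rw [h1, hp2i, hp2 v hv'] at huv
            omega
          · have hu' : u ∈ D.erase i := mem_erase.mpr ⟨h1, hu⟩
            rw [h2, hp2i, hp2 u hu'] at huv
            omega
          · have hv' : v ∈ D.erase i := mem_erase.mpr ⟨h2, hv⟩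
            have hu' : u ∈ D.erase i := mem_erase.mpr ⟨h1, hu⟩
            rw [hp2 u hu', hp2 v hv'] at huv
            exact hp (by exact_mod_cast hu') (by exact_mod_cast hv') (by omega)
        have hc2 : ∀ j ∈ D.erase i, col D A s p2 x2 j = col (D.erase i) A s p x j := by
          intro j hj
          unfold col FF
          rw [← add_sum_erase D _ hi, ← add_sum_erase D _ hi, hx2i, mul_one, hp2i,
            hp2 j hj, if_pos (by omega)]
          have h1 : ∑ k ∈ D.erase i, A j k * x2 k = ∑ k ∈ D.erase i, A j k * x k :=
            sum_congr rfl fun k hk => by rw [hx2 k hk]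
          have h2 : ∑ k ∈ D.erase i, (if p2 k < p j + 1 then A j k else 0)
              = ∑ k ∈ D.erase i, (if p k < p j then A j k else 0) :=
            sum_congr rfl fun k hk => by
              rw [hp2 k hk]
              by_cases h3 : p k < p j
              · rw [if_pos h3, if_pos (by omega)]
              · rw [if_neg h3, if_neg (by omega)]
          rw [h1, h2]
          have h3 : s j + (A j i + ∑ k ∈ D.erase i, A j k * x k)
              + (A j i + ∑ k ∈ D.erase i, (if p k < p j then A j k else 0))
              = (A j i + A j i) + (s j + ∑ k ∈ D.erase i, A j k * x k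
              + ∑ k ∈ D.erase i, (if p k < p j then A j k else 0)) := by ring
          rw [h3, z2_add_self, zero_add]
        have hc2i : col D A s p2 x2 i = e := by
          unfold col FF
          rw [← add_sum_erase D _ hi, ← add_sum_erase D _ hi, hx2i, hdiag, zero_mul, zero_add,
            hp2i, if_neg (lt_irrefl _), zero_add]
          have h1 : ∑ k ∈ D.erase i, (if p2 k < 0 then A i k else 0) = 0 :=
            sum_eq_zero fun k _ => by rw [if_neg (Nat.not_lt_zero _)]
          rw [h1, add_zero, he]
          congr 1
          exact sum_congr rfl fun k hk => by rw [hx2 k hk]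
        refine ⟨p2, hinj2, x2, t + 1, a, b, fun j hj => ?_⟩
        by_cases hji : j = i
        · rw [hji, hc2i, hp2i, if_pos (by omega), hea]
        · have hj' : j ∈ D.erase i := mem_erase.mpr ⟨hji, hj⟩
          rw [hc2 j hj', hp2 j hj', h j hj']
          by_cases h3 : p j < t
          · rw [if_pos h3, if_pos (by omega)]
          · rw [if_neg h3, if_neg (by omega)]
      · -- option 3: `i` comes last, all other colours agree
        have hab : a = b := by
          rcases z2_cases e with h1 | h1 <;> rcases z2_cases a with h2 | h2 <;>
            rcases z2_cases b with h3 | h3 <;> simp_all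
        refine ⟨p1, hinj1, x1, K, a, e, fun j hj => ?_⟩
        by_cases hji : j = i
        · rw [hji, hc1i, hp1i, if_neg (lt_irrefl _)]
        · have hj' : j ∈ D.erase i := mem_erase.mpr ⟨hji, hj⟩
          rw [hc1 j hj', hp1 j hj', h j hj', if_pos (hKp j hj'), hab, ite_self]

/-- The Boolean colours as elements of `ZMod 2`. -/
def bz (b : Bool) : ZMod 2 := if b then 1 else 0

lemma bz_inj {a b : Bool} (h : bz a = bz b) : a = b := by
  revert h; unfold bz; cases a <;> cases b <;> simp

lemma bz_not (a : Bool) : bz (!a) = bz a + 1 := by
  unfold bz; cases a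
  · simp
  · simp; exact (z2_add_self 1).symm

/-- The affine colourings of the cube. -/
theorem affine_form {n : ℕ} (c : (Fin n → Bool) → Fin n → Bool)
    (hc : ∀ d e : Fin n, e ≠ d →
      (∀ z : Fin n → Bool, z d = false → c (Function.update z e (!z e)) d = c z d) ∨
      (∀ z : Fin n → Bool, z d = false → c (Function.update z e (!z e)) d ≠ c z d)) :
    ∃ (A : Fin n → Fin n → ZMod 2) (s : Fin n → ZMod 2), (∀ d, A d d = 0) ∧
      ∀ (z : Fin n → Bool) (d : Fin n), z d = false →
        bz (c z d) = s d + ∑ e, A d e * bz (z e) := by
  classical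
  let A : Fin n → Fin n → ZMod 2 := fun d e =>
    if e = d then 0 else
      if (∀ z : Fin n → Bool, z d = false → c (Function.update z e (!z e)) d = c z d) then 0 else 1
  have hA : ∀ d e : Fin n, e ≠ d → ∀ z : Fin n → Bool, z d = false →
      bz (c (Function.update z e (!z e)) d) = A d e + bz (c z d) := by
    intro d e hed z hz
    simp only [A]
    rw [if_neg hed]
    by_cases h : ∀ z : Fin n → Bool, z d = false → c (Function.update z e (!z e)) d = c z d
    · rw [if_pos h, h z hz, zero_add]
    · rw [if_neg h]
      have h1 := ((hc d e hed).resolve_left h) z hz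
      have h2 : c (Function.update z e (!z e)) d = !(c z d) := by
        cases h3 : c (Function.update z e (!z e)) d <;> cases h4 : c z d <;> simp_all
      rw [h2, bz_not, add_comm]
  refine ⟨A, fun d => bz (c (fun _ => false) d), fun d => by simp [A], ?_⟩
  have key : ∀ (S : Finset (Fin n)) (d : Fin n), d ∉ S →
      bz (c (fun e => decide (e ∈ S)) d) = bz (c (fun _ => false) d) + ∑ e ∈ S, A d e := by
    intro S
    induction S using Finset.induction_on with
    | empty => intro d _; simp
    | insert e S he IH =>
      intro d hd
      rw [mem_insert, not_or] at hd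
      have h1 : (fun k => decide (k ∈ insert e S))
          = Function.update (fun k => decide (k ∈ S)) e (!(decide (e ∈ S))) := by
        funext k
        by_cases hk : k = e
        · subst hk; simp [he]
        · rw [Function.update_of_ne hk]
          simp [hk]
      rw [h1, hA d e (fun h => hd.1 h.symm) _ (by simpa using hd.2), IH d hd.2, sum_insert he]
      ring
  intro z d hz
  have h1 : z = fun e => decide (e ∈ univ.filter fun e => z e = true) := by
    funext e
    cases h : z e <;> simp [h]
  have h2 := key (univ.filter fun e => z e = true) d (by simp [hz])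
  rw [← h1] at h2
  rw [h2]
  congr 1
  rw [sum_filter]
  refine sum_congr rfl fun e _ => ?_
  unfold bz
  cases z e <;> simp

end Pool.Agent.AffGeo
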