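import Pool.Agent.Lib_MP_801c1a_aff.Final

/-!
Every pure system that satisfies its necessary condition is solvable.
-/

set_option autoImplicit false
set_option linter.unusedSectionVars false

namespace Pool.Agent.AffGeo

open Finset

variable {α : Type*} [DecidableEq α]

/-- In a minimal unsolvable system the defects realise every nonzero functional. -/
lemma exists_order_of_functional {V : Finset α} {A : α → α → ZMod 2}
    {U : Submodule (ZMod 2) (α → ZMod 2)} {c : α → ZMod 2}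
    (hHK : HK V A U c) (hns : ¬ Sol V A U c)
    (IHU : ∀ U' : Submodule (ZMod 2) (α → ZMod 2), U' < U → HK V A U' c → Sol V A U' c)
    (w : (α → ZMod 2) →ₗ[ZMod 2] ZMod 2) (hw : ∃ u ∈ U, w u ≠ 0) :
    ∃ p : α → ℕ, Set.InjOn p V ∧ ∀ u ∈ U, DD V A c p u = w u := by
  obtain ⟨u₁, hu₁, hwu₁⟩ := hw
  let U' : Submodule (ZMod 2) (α → ZMod 2) := U ⊓ LinearMap.ker w
  have hmem : ∀ u, u ∈ U' ↔ u ∈ U ∧ w u = 0 := fun u => by
    simp only [U', Submodule.mem_inf, LinearMap.mem_ker]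
  have hlt : U' < U := by
    refine lt_of_le_of_ne inf_le_left fun h => hwu₁ ?_
    have : u₁ ∈ U' := h ▸ hu₁
    exact ((hmem u₁).mp this).2
  obtain ⟨p, hp, hpD⟩ := IHU U' hlt (fun u hu => hHK u ((hmem u).mp hu).1)
  refine ⟨p, hp, ?_⟩
  have hne : ∃ u₀ ∈ U, DD V A c p u₀ ≠ 0 := by
    by_contra hcon
    push Not at hcon
    exact hns ⟨p, hp, hcon⟩
  obtain ⟨u₀, hu₀, hD₀⟩ := hne
  have hw₀ : w u₀ ≠ 0 := fun h => hD₀ (hpD u₀ ((hmem u₀).mpr ⟨hu₀, h⟩))
  intro u hu
  rcases z2_cases (w u) with h | h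
  · rw [h]; exact hpD u ((hmem u).mpr ⟨hu, h⟩)
  · have h1 : u + u₀ ∈ U' := (hmem _).mpr ⟨U.add_mem hu hu₀, by
      rw [map_add, h, z2_ne_zero hw₀]; exact z2_add_self _⟩
    have h2 := hpD _ h1
    rw [DD_add, z2_ne_zero hD₀] at h2
    rw [h]
    exact CharTwo.add_eq_zero.mp h2

/-- With `x` first, both the first and the last neighbour `y` of `x` give defect one. -/
lemma two_neighbours {V : Finset α} {A : α → α → ZMod 2}
    {U : Submodule (ZMod 2) (α → ZMod 2)} {c : α → ZMod 2} (hS : Sys V A U)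
    {x : α} (hx : x ∈ V) (G : Finset α) (hGV : G ⊆ V) (hxG : x ∉ G)
    (hG : ∀ j ∈ V, j ∉ G → ∀ u ∈ U, bb A u x j = 0)
    (hG' : ∀ j ∈ G, ∃ u ∈ U, bb A u x j = 1) (hne : G.Nonempty)
    (f : α → α → ZMod 2) (hf : ∀ y ∈ G, Obs V A U c x y (f y))
    (q : α → ℕ) (hq : Set.InjOn q V) (hqx : ∀ j ∈ V, j ≠ x → q x < q j) :
    ∃ y₁ ∈ G, ∃ y₂ ∈ G, y₁ ≠ y₂ ∧ DD V A c q (f y₁) = 1 ∧ DD V A c q (f y₂) = 1 := by
  obtain ⟨y₁, hy₁, hmin⟩ := exists_min_image G q hne
  obtain ⟨y₂, hy₂, hmax⟩ := exists_max_image G q hne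
  have hx1 : ∀ y ∈ G, y ≠ x := fun y hy h => hxG (h ▸ hy)
  refine ⟨y₁, hy₁, y₂, hy₂, ?_, ?_, ?_⟩
  · rintro rfl
    obtain ⟨u, hu, hb⟩ := hG' y₁ hy₁
    have hrow := bb_row hS hu hx
    rw [sum_eq_single y₁, hb] at hrow
    · exact absurd hrow (by decide)
    · intro j hj hjy
      refine hG j hj (fun hjG => hjy ?_) u hu
      exact hq (hGV hjG) (hGV hy₁) (le_antisymm (hmax j hjG) (hmin j hjG))
    · intro h; exact absurd (hGV hy₁) h
  · rw [(hf y₁ hy₁).val q hq, sum_eq_zero, add_zero]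
    intro j hj
    by_cases hb : btw q x j y₁
    · rw [if_pos hb]
      refine hG j hj (fun hjG => ?_) _ (hf y₁ hy₁).mem
      have h1 := hmin j hjG
      have h2 := hqx y₁ (hGV hy₁) (hx1 y₁ hy₁)
      unfold btw at hb
      omega
    · rw [if_neg hb]
  · rw [(hf y₂ hy₂).val q hq]
    have e : ∑ j ∈ V, (if btw q x j y₂ then bb A (f y₂) x j else 0)
        = ∑ j ∈ V, bb A (f y₂) x j := by
      refine sum_congr rfl fun j hj => ?_
      by_cases hb : btw q x j y₂
      · rw [if_pos hb]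
      · rw [if_neg hb]
        by_cases hjx : j = x
        · rw [hjx, bb_self]
        by_cases hjy : j = y₂
        · rw [hjy, (hf y₂ hy₂).pair]
        refine (hG j hj (fun hjG => hb ?_) _ (hf y₂ hy₂).mem).symm
        have h1 := hmax j hjG
        have h2 := hqx j hj hjx
        have h3 : q j ≠ q y₂ := fun h => hjy (hq hj (hGV hy₂) h)
        left
        exact ⟨h2, lt_of_le_of_ne h1 h3⟩
    rw [e, bb_row hS (hf y₂ hy₂).mem hx, add_zero]

/-- With `x` first, if all of `L` before `y` are far then the defect at `y` is one. -/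
lemma first_in_L {V : Finset α} {A : α → α → ZMod 2}
    {U : Submodule (ZMod 2) (α → ZMod 2)} {c : α → ZMod 2}
    {x : α} (L : Finset α) (hLV : L ⊆ V) (hxL : x ∉ L)
    (hne : L.Nonempty)
    (f : α → α → ZMod 2) (hf : ∀ y ∈ L, Obs V A U c x y (f y))
    (hL : ∀ y ∈ L, ∀ j ∈ V, j ∉ L → bb A (f y) x j = 0)
    (q : α → ℕ) (hq : Set.InjOn q V) (hqx : ∀ j ∈ V, j ≠ x → q x < q j) :
    ∃ y₁ ∈ L, DD V A c q (f y₁) = 1 := by
  obtain ⟨y₁, hy₁, hmin⟩ := exists_min_image L q hne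
  refine ⟨y₁, hy₁, ?_⟩
  rw [(hf y₁ hy₁).val q hq, sum_eq_zero, add_zero]
  intro j hj
  by_cases hb : btw q x j y₁
  · rw [if_pos hb]
    refine hL y₁ hy₁ j hj (fun hjG => ?_)
    have h1 := hmin j hjG
    have h2 := hqx y₁ (hLV hy₁) (fun h => hxL (h ▸ hy₁))
    unfold btw at hb
    omega
  · rw [if_neg hb]

/-- Local structure around a vertex of a minimal unsolvable system. -/
lemma local_structure {V : Finset α} {A : α → α → ZMod 2}
    {U : Submodule (ZMod 2) (α → ZMod 2)} {c : α → ZMod 2} (hS : Sys V A U)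
    (hfun : ∀ w : (α → ZMod 2) →ₗ[ZMod 2] ZMod 2, (∃ u ∈ U, w u ≠ 0) →
      ∃ p : α → ℕ, Set.InjOn p V ∧ ∀ u ∈ U, DD V A c p u = w u)
    {x : α} (hx : x ∈ V) (G : Finset α) (hGV : G ⊆ V) (hxG : x ∉ G)
    (hG : ∀ j ∈ V, j ∉ G → ∀ u ∈ U, bb A u x j = 0)
    (hG' : ∀ j ∈ G, ∃ u ∈ U, bb A u x j = 1) (hne : G.Nonempty)
    (f : α → α → ZMod 2) (hf : ∀ y ∈ G, Obs V A U c x y (f y)) :
    (∀ i ∈ V, ∀ j ∈ V, (i ≠ x ∧ i ∉ G) → ∀ u ∈ U, bb A u i j = 0) ∧
    (∀ y ∈ G, ∀ z ∈ G, y ≠ z → bb A (f y) y z = bb A (f z) y z) ∧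
    (∀ y ∈ G, ∀ z ∈ G, (∃ u ∈ U, bb A u y z = 1) → y ≠ z →
      bb A (f y) y z = 1 ∨ bb A (f z) y z = 1) ∧
    U ≤ Submodule.span (ZMod 2) (f '' (G : Set α)) := by
  classical
  -- a relation between the obstructions
  obtain ⟨y₀, hy₀⟩ := hne
  have hspan : f y₀ ∈ Submodule.span (ZMod 2) (f '' ((G.erase y₀ : Finset α) : Set α)) := by
    by_contra hcon
    obtain ⟨w, hw, hker⟩ := Submodule.exists_le_ker_of_notMem hcon
    obtain ⟨p, hp, hpD⟩ := hfun w ⟨f y₀, (hf y₀ hy₀).mem, hw⟩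
    obtain ⟨q, hq, hqx, hqD⟩ := exists_rotate hS c p hp hx
    obtain ⟨y₁, hy₁, y₂, hy₂, hne, hD₁, hD₂⟩ :=
      two_neighbours hS hx G hGV hxG hG hG' ⟨y₀, hy₀⟩ f hf q hq hqx
    have hzero : ∀ y ∈ G, y ≠ y₀ → DD V A c q (f y) = 0 := by
      intro y hy hyne
      rw [hqD _ (hf y hy).mem, hpD _ (hf y hy).mem]
      exact hker (Submodule.subset_span ⟨y, mem_coe.mpr (mem_erase.mpr ⟨hyne, hy⟩), rfl⟩)
    by_cases h1 : y₁ = y₀
    · have := hzero y₂ hy₂ (fun h => hne (h1.trans h.symm))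
      rw [hD₂] at this; exact absurd this (by decide)
    · have := hzero y₁ hy₁ h1
      rw [hD₁] at this; exact absurd this (by decide)
  rw [Submodule.mem_span_image_finset_iff_exists_fun'] at hspan
  obtain ⟨g₀, hg₀⟩ := hspan
  -- coefficients of the relation
  obtain ⟨g, hgy₀, hgsum⟩ : ∃ g : α → ZMod 2, g y₀ = 1 ∧ ∑ y ∈ G, g y • f y = 0 := by
    refine ⟨fun y => if y = y₀ then 1 else g₀ y, if_pos rfl, ?_⟩
    have e1 : (fun y => if y = y₀ then (1 : ZMod 2) else g₀ y) y₀ = 1 := if_pos rfl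
    rw [← add_sum_erase G _ hy₀, e1, one_smul]
    have e3 : ∑ y ∈ G.erase y₀, (fun y => if y = y₀ then (1 : ZMod 2) else g₀ y) y • f y
        = f y₀ := by
      rw [← hg₀]
      refine sum_congr rfl fun y hy => ?_
      rw [mem_erase] at hy
      have e2 : (fun y => if y = y₀ then (1 : ZMod 2) else g₀ y) y = g₀ y := if_neg hy.1
      rw [e2]
    rw [e3]
    funext a
    exact z2_add_self _
  let L : Finset α := G.filter fun y => g y = 1
  have hLG : L ⊆ G := filter_subset _ _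
  have hLmem : ∀ y, y ∈ L ↔ y ∈ G ∧ g y = 1 := fun y => by simp only [L, mem_filter]
  have hgL : ∀ y ∈ G, y ∉ L → g y = 0 := fun y hy h =>
    (z2_cases (g y)).resolve_right fun h' => h ((hLmem y).mpr ⟨hy, h'⟩)
  have hLne : L.Nonempty := ⟨y₀, (hLmem y₀).mpr ⟨hy₀, hgy₀⟩⟩
  have hyx : ∀ y ∈ G, y ≠ x := fun y hy h => hxG (h ▸ hy)
  -- weights of the relation
  have hrel : ∀ i j, ∑ y ∈ G, g y * bb A (f y) i j = 0 := by
    intro i j
    have h1 : ∑ y ∈ G, g y * bb A (f y) i j = bb A (∑ y ∈ G, g y • f y) i j := by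
      unfold bb
      simp only [Finset.sum_apply, Pi.smul_apply, smul_eq_mul, sum_mul, ← sum_add_distrib]
      refine sum_congr rfl fun y _ => ?_
      ring
    rw [h1, hgsum]
    unfold bb; simp
  have hpairrel : ∀ y ∈ L, ∀ z ∈ V, z ≠ x → z ≠ y →
      bb A (f y) y z + (if z ∈ L then bb A (f z) y z else 0) = 0 := by
    intro y hy z hz hzx hzy
    have hyG := hLG hy
    have h0 := hrel y z
    have hother : ∀ y' ∈ G, y' ≠ y → y' ≠ z → g y' * bb A (f y') y z = 0 := by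
      intro y' hy' h1 h2
      rw [(hf y' hy').out y (hGV hyG) z hz (hyx y hyG) h1.symm hzx h2.symm, mul_zero]
    by_cases hzG : z ∈ G
    · rw [← add_sum_erase G _ hyG, ← add_sum_erase (G.erase y) _ (mem_erase.mpr ⟨hzy, hzG⟩),
        sum_eq_zero (s := (G.erase y).erase z), add_zero, ((hLmem y).mp hy).2, one_mul] at h0
      · by_cases hzL : z ∈ L
        · rw [if_pos hzL]
          rw [((hLmem z).mp hzL).2, one_mul] at h0
          exact h0
        · rw [if_neg hzL]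
          rw [hgL z hzG hzL, zero_mul] at h0
          exact h0
      · intro y' hy'
        rw [mem_erase, mem_erase] at hy'
        exact hother y' hy'.2.2 hy'.2.1 hy'.1
    · have hzL : z ∉ L := fun h => hzG (hLG h)
      rw [if_neg hzL, add_zero]
      rw [← add_sum_erase G _ hyG, sum_eq_zero (s := G.erase y), add_zero,
        ((hLmem y).mp hy).2, one_mul] at h0
      · exact h0
      · intro y' hy'
        rw [mem_erase] at hy'
        exact hother y' hy'.2 hy'.1 (fun h => hzG (h ▸ hy'.2))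
  have hLout : ∀ y ∈ L, ∀ z ∈ V, z ∉ L → bb A (f y) x z = 0 := by
    intro y hy z hz hzL
    have hyG := hLG hy
    by_cases hzx : z = x
    · rw [hzx, bb_self]
    have hzy : z ≠ y := fun h => hzL (h ▸ hy)
    rw [(hf y hyG).twin z hz hzx hzy]
    have := hpairrel y hy z hz hzx hzy
    rw [if_neg hzL, add_zero] at this
    exact this
  have hxL : x ∉ L := fun h => hxG (hLG h)
  -- the obstructions in the relation span
  have hUspan : ∀ u ∈ U, u ∈ Submodule.span (ZMod 2) (f '' (L : Set α)) := by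
    intro u hu
    by_contra hcon
    obtain ⟨w, hw, hker⟩ := Submodule.exists_le_ker_of_notMem hcon
    obtain ⟨p, hp, hpD⟩ := hfun w ⟨u, hu, hw⟩
    obtain ⟨q, hq, hqx, hqD⟩ := exists_rotate hS c p hp hx
    obtain ⟨y₁, hy₁, hD₁⟩ := first_in_L (c := c) L (hLG.trans hGV) hxL hLne f
      (fun y hy => hf y (hLG hy)) hLout q hq hqx
    rw [hqD _ (hf y₁ (hLG hy₁)).mem, hpD _ (hf y₁ (hLG hy₁)).mem] at hD₁
    have : w (f y₁) = 0 := hker (Submodule.subset_span ⟨y₁, mem_coe.mpr hy₁, rfl⟩)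
    rw [this] at hD₁
    exact absurd hD₁ (by decide)
  -- weights vanish off L
  have hzeroL : ∀ i ∈ V, ∀ j ∈ V, (i ≠ x ∧ i ∉ L) → ∀ u ∈ U, bb A u i j = 0 := by
    intro i hi j hj hiL u hu
    have hall : ∀ v ∈ Submodule.span (ZMod 2) (f '' (L : Set α)), bb A v i j = 0 := by
      intro v hv
      induction hv using Submodule.span_induction with
      | mem v hv =>
        obtain ⟨y, hy, rfl⟩ := hv
        have hyL : y ∈ L := mem_coe.mp hy
        have hyG := hLG hyL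
        have hiy : i ≠ y := fun h => hiL.2 (h ▸ hyL)
        by_cases hjx : j = x
        · rw [hjx, bb_comm]
          exact hLout y hyL i hi hiL.2
        by_cases hjy : j = y
        · rw [hjy, bb_comm, ← (hf y hyG).twin i hi hiL.1 hiy]
          exact hLout y hyL i hi hiL.2
        exact (hf y hyG).out i hi j hj hiL.1 hiy hjx hjy
      | zero => unfold bb; simp
      | add v w _ _ hv hw => rw [bb_add, hv, hw, add_zero]
      | smul r v _ hv => rw [bb_smul, hv, mul_zero]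
    exact hall u (hUspan u hu)
  have hGL : ∀ y ∈ G, y ∈ L := by
    intro y hy
    by_contra hyL
    obtain ⟨u, hu, hb⟩ := hG' y hy
    rw [bb_comm, hzeroL y (hGV hy) x hx ⟨hyx y hy, hyL⟩ u hu] at hb
    exact absurd hb (by decide)
  refine ⟨?_, ?_, ?_, ?_⟩
  · intro i hi j hj h u hu
    exact hzeroL i hi j hj ⟨h.1, fun h' => h.2 (hLG h')⟩ u hu
  · intro y hy z hz hyz
    have := hpairrel y (hGL y hy) z (hGV hz) (hyx z hz) hyz.symm
    rw [if_pos (hGL z hz)] at this
    exact CharTwo.add_eq_zero.mp this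
  · intro y hy z hz hex hyz
    by_contra hcon
    push Not at hcon
    have h1 : bb A (f y) y z = 0 := (z2_cases _).resolve_right hcon.1
    have h2 : bb A (f z) y z = 0 := (z2_cases _).resolve_right hcon.2
    obtain ⟨u, hu, hb⟩ := hex
    have hall : ∀ v ∈ Submodule.span (ZMod 2) (f '' (L : Set α)), bb A v y z = 0 := by
      intro v hv
      induction hv using Submodule.span_induction with
      | mem v hv =>
        obtain ⟨y', hy', rfl⟩ := hv
        have hyG' := hLG (mem_coe.mp hy')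
        by_cases e1 : y' = y
        · rw [e1]; exact h1
        by_cases e2 : y' = z
        · rw [e2]; exact h2
        exact (hf y' hyG').out y (hGV hy) z (hGV hz) (hyx y hy) (fun h => e1 h.symm)
          (hyx z hz) (fun h => e2 h.symm)
      | zero => unfold bb; simp
      | add v w _ _ hv hw => rw [bb_add, hv, hw, add_zero]
      | smul r v _ hv => rw [bb_smul, hv, mul_zero]
    rw [hall u (hUspan u hu)] at hb
    exact absurd hb (by decide)
  · intro u hu
    exact Submodule.span_mono (Set.image_mono (coe_subset.mpr hLG)) (hUspan u hu)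

end Pool.Agent.AffGeo
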