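import Pool.Agent.Lib_MP_801c1a_aff.Solve

/-!
Affine colourings all of whose row sums are odd have a monochromatic antipodal geodesic.
-/

set_option autoImplicit false
set_option linter.unusedSectionVars false

namespace Pool.Agent.AffGeo

open Finset

/-- Duality on finite coordinate spaces: a vector that is killed by every functional that kills the
columns of `B` lies in the range of `B`. -/
lemma exists_solution_of_dual {β : Type*} [DecidableEq β] (D : Finset β)
    (B : β → β → ZMod 2) (w : β → ZMod 2)
    (h : ∀ u : β → ZMod 2, (∀ y ∈ D, ∑ x ∈ D, u x * B x y = 0) → ∑ i ∈ D, u i * w i = 0) :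
    ∃ x : β → ZMod 2, ∀ i ∈ D, ∑ j ∈ D, B i j * x j = w i := by
  classical
  let M : (D → ZMod 2) →ₗ[ZMod 2] (D → ZMod 2) :=
    Matrix.mulVecLin (Matrix.of fun i j : D => B i j)
  have hM : ∀ (v : D → ZMod 2) (i : D), M v i = ∑ j : D, B i j * v j := by
    intro v i
    simp only [M, Matrix.mulVecLin_apply, Matrix.mulVec, dotProduct, Matrix.of_apply]
  by_cases hw : (fun i : D => w i) ∈ LinearMap.range M
  · obtain ⟨v, hv⟩ := hw
    refine ⟨fun b => if hb : b ∈ D then v ⟨b, hb⟩ else 0, fun i hi => ?_⟩
    have h1 := congrFun hv ⟨i, hi⟩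
    rw [hM] at h1
    rw [← h1, ← sum_coe_sort D]
    refine sum_congr rfl fun j _ => ?_
    beta_reduce
    rw [dif_pos j.2]
  · exfalso
    obtain ⟨f, hf, hfM⟩ := Submodule.exists_le_ker_of_notMem hw
    have hfr : ∀ v : D → ZMod 2, f v = ∑ i : D, v i * f (Pi.single i 1) := by
      intro v
      conv_lhs => rw [LinearMap.pi_apply_eq_sum_univ f v]
      refine sum_congr rfl fun i _ => ?_
      rw [smul_eq_mul]
      congr 2
      funext j
      simp only [Pi.single_apply, eq_comm]
    apply hf
    rw [hfr]
    have h1 := h (fun b => if hb : b ∈ D then f (Pi.single ⟨b, hb⟩ 1) else 0) ?_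
    · rw [← h1, ← sum_coe_sort D]
      refine sum_congr rfl fun j _ => ?_
      rw [dif_pos j.2, mul_comm]
    · intro y hy
      have h2 : f (M (Pi.single ⟨y, hy⟩ 1)) = 0 :=
        LinearMap.mem_ker.mp (hfM (LinearMap.mem_range_self M _))
      rw [hfr] at h2
      rw [← h2, ← sum_coe_sort D]
      refine sum_congr rfl fun i _ => ?_
      rw [dif_pos i.2, hM]
      rw [sum_eq_single (⟨y, hy⟩ : D)]
      · simp only [Pi.single_eq_same, mul_one]
        rw [mul_comm]
      · intro b _ hb
        rw [Pi.single_eq_of_ne hb, mul_zero]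
      · intro hb; exact absurd (mem_univ _) hb

/-- The matrix with a new column of ones. -/
def extA {β : Type*} (B : β → β → ZMod 2) : Option β → Option β → ZMod 2
  | none, _ => 0
  | some _, none => 1
  | some x, some y => B x y

/-- The functionals that kill the columns of `B`, on the extended set. -/
def extU {β : Type*} (D : Finset β) (B : β → β → ZMod 2) :
    Submodule (ZMod 2) (Option β → ZMod 2) where
  carrier := {u | u none = 0 ∧ ∀ y ∈ D, ∑ x ∈ D, u (some x) * B x y = 0}
  add_mem' := by
    rintro u v ⟨h1, h2⟩ ⟨h3, h4⟩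
    refine ⟨by simp [h1, h3], fun y hy => ?_⟩
    simp only [Pi.add_apply, add_mul, sum_add_distrib, h2 y hy, h4 y hy, add_zero]
  zero_mem' := by
    refine ⟨rfl, fun y hy => ?_⟩
    simp
  smul_mem' := by
    rintro r u ⟨h1, h2⟩
    refine ⟨by simp [h1], fun y hy => ?_⟩
    simp only [Pi.smul_apply, smul_eq_mul, mul_assoc, ← mul_sum, h2 y hy, mul_zero]

theorem mono {β : Type*} [DecidableEq β] [Fintype β] (D : Finset β) (B : β → β → ZMod 2)
    (hdiag : ∀ x ∈ D, B x x = 0) (hrow : ∀ x ∈ D, ∑ y ∈ D, B x y = 1) (s : β → ZMod 2) :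
    ∃ p : β → ℕ, Set.InjOn p D ∧ ∃ x : β → ZMod 2,
      ∀ i ∈ D, ∑ j ∈ D, B i j * x j = s i + FF D B p i := by
  classical
  have hU0 : ∀ u ∈ extU D B, ∑ x ∈ D, u (some x) = 0 := by
    rintro u ⟨_, h2⟩
    have h3 : ∑ x ∈ D, u (some x) = ∑ x ∈ D, u (some x) * ∑ y ∈ D, B x y :=
      sum_congr rfl fun x hx => by rw [hrow x hx, mul_one]
    rw [h3]
    simp only [mul_sum]
    rw [sum_comm]
    exact sum_eq_zero fun y hy => h2 y hy
  have hS : Sys (insertNone D) (extA B) (extU D B) := by
    refine ⟨?_, ?_, ?_⟩
    · intro x hx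
      rcases x with _ | x
      · rfl
      · exact hdiag x (by simpa using hx)
    · intro x hx
      rcases x with _ | x
      · exact sum_eq_zero fun y _ => rfl
      · rw [sum_insertNone]
        simp only [extA]
        rw [hrow x (by simpa using hx)]
        exact z2_add_self _
    · intro u hu y hy
      rw [sum_insertNone]
      rcases y with _ | y
      · simp only [extA, mul_zero, mul_one, zero_add]
        exact hU0 u hu
      · simp only [extA, mul_zero, zero_add]
        exact hu.2 y (by simpa using hy)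
  have hHK : HK (insertNone D) (extA B) (extU D B) (fun o => o.elim 0 s) := by
    intro u hu hb p hp
    have h1 : ∀ i ∈ insertNone D, u i = 0 := by
      intro i hi
      rcases i with _ | i
      · exact hu.1
      · have h2 := hb (some i) hi none (by simp)
        simpa [bb, extA] using h2
    unfold DD
    exact sum_eq_zero fun i hi => by rw [h1 i hi, zero_mul]
  obtain ⟨p, hp, hpD⟩ := solvable _ _ _ _ hS hHK
  obtain ⟨q, hq, hqx, hqD⟩ := exists_rotate hS (fun o => o.elim 0 s) p hp
    (x := none) (by simp)
  refine ⟨fun b => q (some b), ?_, ?_⟩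
  · intro a ha b hb hab
    have := hq (by simpa using ha) (by simpa using hb) hab
    exact Option.some_injective _ this
  · refine exists_solution_of_dual D B _ ?_
    intro u hu
    have hu' : (fun o : Option β => o.elim 0 u) ∈ extU D B := ⟨rfl, hu⟩
    have h1 := hqD _ hu'
    rw [hpD _ hu'] at h1
    unfold DD at h1
    rw [sum_insertNone] at h1
    simp only [Option.elim, zero_mul, zero_add] at h1
    have h2 : ∀ i ∈ D, FF (insertNone D) (extA B) q (some i)
        = 1 + FF D B (fun b => q (some b)) i := by
      intro i hi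
      unfold FF
      rw [sum_insertNone, if_pos (hqx (some i) (by simpa using hi) (by simp))]
      rfl
    have h3 : ∑ i ∈ D, u i * (s i + FF (insertNone D) (extA B) q (some i))
        = ∑ i ∈ D, u i * (s i + FF D B (fun b => q (some b)) i) + ∑ i ∈ D, u i := by
      rw [← sum_add_distrib]
      refine sum_congr rfl fun i hi => ?_
      rw [h2 i hi]; ring
    rw [h3] at h1
    have h4 : ∑ i ∈ D, u i = 0 := hU0 _ hu'
    rw [h4, add_zero] at h1
    exact h1

end Pool.Agent.AffGeo
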