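import Pool.Agent.Lib_MP_801c1a_aff.Contract

/-!
If the contracted system is solvable in all cases allowed by its own necessary condition, then
either the system is solvable or the pair carries an obstruction.
-/

set_option autoImplicit false
set_option linter.unusedSectionVars false

namespace Pool.Agent.AffGeo

open Finset

variable {α : Type*} [DecidableEq α]

/-- Some order has defect zero at all functionals. -/
def Sol (V : Finset α) (A : α → α → ZMod 2) (U : Submodule (ZMod 2) (α → ZMod 2))
    (c : α → ZMod 2) : Prop :=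
  ∃ p : α → ℕ, Set.InjOn p V ∧ ∀ u ∈ U, DD V A c p u = 0

/-- The necessary condition: the defect vanishes at the functionals without weights. -/
def HK (V : Finset α) (A : α → α → ZMod 2) (U : Submodule (ZMod 2) (α → ZMod 2))
    (c : α → ZMod 2) : Prop :=
  ∀ u ∈ U, (∀ i ∈ V, ∀ j ∈ V, bb A u i j = 0) → ∀ p : α → ℕ, Set.InjOn p V → DD V A c p u = 0

/-- An obstruction at the pair `x, y`. -/
structure Obs (V : Finset α) (A : α → α → ZMod 2) (U : Submodule (ZMod 2) (α → ZMod 2))
    (c : α → ZMod 2) (x y : α) (u : α → ZMod 2) : Prop where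
  mem : u ∈ U
  pair : bb A u x y = 0
  out : ∀ i ∈ V, ∀ j ∈ V, i ≠ x → i ≠ y → j ≠ x → j ≠ y → bb A u i j = 0
  twin : ∀ j ∈ V, j ≠ x → j ≠ y → bb A u x j = bb A u y j
  val : ∀ q : α → ℕ, Set.InjOn q V →
    DD V A c q u = 1 + ∑ j ∈ V, if btw q x j y then bb A u x j else 0

lemma btw_symm {q : α → ℕ} {x j y : α} : btw q x j y ↔ btw q y j x := by
  unfold btw; exact or_comm

lemma not_btw_left {q : α → ℕ} {x y : α} : ¬ btw q x x y := by
  unfold btw; rintro (⟨h, _⟩ | ⟨_, h⟩) <;> exact lt_irrefl _ h

lemma not_btw_right {q : α → ℕ} {x y : α} : ¬ btw q x y y := by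
  unfold btw; rintro (⟨_, h⟩ | ⟨h, _⟩) <;> exact lt_irrefl _ h

lemma Obs.symm {V : Finset α} {A : α → α → ZMod 2} {U : Submodule (ZMod 2) (α → ZMod 2)}
    {c : α → ZMod 2} {x y : α} {u : α → ZMod 2} (h : Obs V A U c x y u) : Obs V A U c y x u := by
  refine ⟨h.mem, by rw [bb_comm]; exact h.pair, fun i hi j hj h1 h2 h3 h4 =>
    h.out i hi j hj h2 h1 h4 h3, fun j hj h1 h2 => (h.twin j hj h2 h1).symm, ?_⟩
  intro q hq
  rw [h.val q hq]
  congr 1
  refine sum_congr rfl fun j hj => ?_
  by_cases hb : btw q x j y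
  · have hx : j ≠ x := fun e => not_btw_left (e ▸ hb)
    have hy : j ≠ y := by
      rintro rfl; exact not_btw_right hb
    rw [if_pos hb, if_pos (btw_symm.mp hb), h.twin j hj hx hy]
  · rw [if_neg hb, if_neg (fun h' => hb (btw_symm.mp h'))]

/-- Exchanging two neighbours `x, y` in the inserted order. -/
lemma DD_swap {V : Finset α} (A : α → α → ZMod 2)
    {x y : α} (hx : x ∈ V) (hy : y ∈ V) (hxy : x ≠ y)
    (c : α → ZMod 2) {p : α → ℕ} (hp : Set.InjOn p (V.erase y : Finset α)) :
    ∃ q : α → ℕ, Set.InjOn q V ∧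
      ∀ u : α → ZMod 2, DD V A c q u = DD V A c (ins p x y) u + bb A u x y := by
  have hxV : x ∈ ((V.erase y : Finset α) : Set α) := mem_coe.mpr (mem_erase.mpr ⟨hxy, hx⟩)
  let q : α → ℕ := fun j => if j = y then 2 * p x else if j = x then 2 * p x + 1 else 2 * p j
  have qy : q y = 2 * p x := if_pos rfl
  have qx : q x = 2 * p x + 1 := by
    have : q x = if x = y then 2 * p x else if x = x then 2 * p x + 1 else 2 * p x := rfl
    rw [this, if_neg hxy, if_pos rfl]
  have qj : ∀ j, j ≠ x → j ≠ y → q j = 2 * p j := fun j h1 h2 => by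
    simp only [q]; rw [if_neg h2, if_neg h1]
  have pinj : ∀ i ∈ V, ∀ j ∈ V, i ≠ y → j ≠ y → p i = p j → i = j := fun i hi j hj h1 h2 h =>
    hp (mem_coe.mpr (mem_erase.mpr ⟨h1, hi⟩)) (mem_coe.mpr (mem_erase.mpr ⟨h2, hj⟩)) h
  have hq : Set.InjOn q V := by
    intro i hi j hj hij
    have hi' : i ∈ V := hi
    have hj' : j ∈ V := hj
    by_cases i1 : i = y
    · by_cases j1 : j = y
      · rw [i1, j1]
      · by_cases j2 : j = x
        · rw [i1, j2, qy, qx] at hij; omega
        · rw [i1, qy, qj j j2 j1] at hij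
          exact absurd (pinj j hj' x hx j1 hxy (by omega)) j2
    · by_cases i2 : i = x
      · by_cases j1 : j = y
        · rw [i2, j1, qy, qx] at hij; omega
        · by_cases j2 : j = x
          · rw [i2, j2]
          · rw [i2, qx, qj j j2 j1] at hij; omega
      · by_cases j1 : j = y
        · rw [j1, qy, qj i i2 i1] at hij
          exact absurd (pinj i hi' x hx i1 hxy (by omega)) i2
        · by_cases j2 : j = x
          · rw [j2, qx, qj i i2 i1] at hij; omega
          · rw [qj i i2 i1, qj j j2 j1] at hij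
            exact pinj i hi' j hj' i1 j1 (by omega)
  refine ⟨q, hq, fun u => ?_⟩
  have hd := DD_diff V A c (ins p x y) q (ins_injOn hp) hq u
  have hz : ∑ i ∈ V, ∑ j ∈ V, (if ins p x y j < ins p x y i ∧ q i < q j then bb A u i j else 0)
      = bb A u x y := by
    rw [sum_eq_single y, sum_eq_single x]
    · rw [ins_y, ins_ne hxy, qy, qx, if_pos (by omega), bb_comm]
    · intro j hj hjx
      by_cases hjy : j = y
      · rw [hjy, if_neg (by omega)]
      · rw [ins_y, ins_ne hjy, qy, qj j hjx hjy, if_neg (by omega)]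
    · intro h; exact absurd hx h
    · intro i hi hiy
      refine sum_eq_zero fun j hj => ?_
      by_cases hix : i = x
      · rw [hix, ins_ne hxy, qx]
        by_cases hjy : j = y
        · rw [hjy, ins_y, qy, if_neg (by omega)]
        · by_cases hjx : j = x
          · rw [hjx, ins_ne hxy, if_neg (by omega)]
          · rw [ins_ne hjy, qj j hjx hjy, if_neg (by omega)]
      · rw [ins_ne hiy, qj i hix hiy]
        by_cases hjy : j = y
        · rw [hjy, ins_y, qy, if_neg (by omega)]
        · by_cases hjx : j = x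
          · rw [hjx, ins_ne hxy, qx]
            rw [if_neg]
            intro h
            have : p i = p x := by omega
            exact hix (pinj i hi x hx hiy hxy this)
          · rw [ins_ne hjy, qj j hjx hjy, if_neg (by omega)]
    · intro h; exact absurd hy h
  rw [hz] at hd
  have h1 : DD V A c q u = DD V A c (ins p x y) u + (DD V A c (ins p x y) u + DD V A c q u) := by
    rw [← add_assoc, z2_add_self, zero_add]
  rw [h1, hd]

lemma exists_obs_of_arc {V : Finset α} {A : α → α → ZMod 2}
    {U : Submodule (ZMod 2) (α → ZMod 2)} {x y : α} (hx : x ∈ V) (hy : y ∈ V)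
    (hxy : x ≠ y) (hA : A y x = 1) (c : α → ZMod 2)
    (IH : HK (V.erase y) (cA A x y) (cU A U x y) (cc A c x y) →
      Sol (V.erase y) (cA A x y) (cU A U x y) (cc A c x y))
    (hns : ¬ Sol V A U c) : ∃ u, Obs V A U c x y u := by
  classical
  have hpairU : ∀ u ∈ U, bb A u x y = 0 → u ∈ cU A U x y := by
    intro u hu h
    refine ⟨hu, ?_⟩
    unfold bb at h
    rw [hA, mul_one] at h
    rw [← CharTwo.add_eq_zero.mp h, mul_comm]
  by_cases hH : HK (V.erase y) (cA A x y) (cU A U x y) (cc A c x y)
  · exfalso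
    obtain ⟨p, hp, hpD⟩ := IH hH
    have h1 : ∀ u ∈ cU A U x y, DD V A c (ins p x y) u = 0 := fun u hu => by
      rw [DD_ins hx hy hxy hA c hp hu.2]; exact hpD u hu
    obtain ⟨q, hq, hqD⟩ := DD_swap A hx hy hxy c hp
    by_cases h2 : ∀ u ∈ U, DD V A c (ins p x y) u = 0
    · exact hns ⟨_, ins_injOn hp, h2⟩
    · push Not at h2
      obtain ⟨v, hv, hvD⟩ := h2
      have hvD1 := z2_ne_zero hvD
      have hvb : bb A v x y = 1 := z2_ne_zero fun h => hvD (h1 v (hpairU v hv h))
      refine hns ⟨q, hq, fun u hu => ?_⟩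
      rw [hqD u]
      rcases z2_cases (bb A u x y) with h | h
      · rw [h, h1 u (hpairU u hu h), add_zero]
      · have h3 := h1 (u + v) (hpairU _ (U.add_mem hu hv) (by
          rw [bb_add, h, hvb]; exact z2_add_self _))
        rw [DD_add, hvD1] at h3
        rw [h]; exact h3
  · unfold HK at hH
    push Not at hH
    obtain ⟨u, hu, hb, p, hp, hpD⟩ := hH
    have hD1 : DD V A c (ins p x y) u = 1 := by
      rw [DD_ins hx hy hxy hA c hp hu.2]; exact z2_ne_zero hpD
    have hxE : x ∈ V.erase y := mem_erase.mpr ⟨hxy, hx⟩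
    have hpair : bb A u x y = 0 := by
      unfold bb; rw [hA, mul_one, hu.2, mul_comm]; exact z2_add_self _
    have hout : ∀ i ∈ V, ∀ j ∈ V, i ≠ x → i ≠ y → j ≠ x → j ≠ y → bb A u i j = 0 := by
      intro i hi j hj h1 h2 h3 h4
      rw [← bb_contract_ij (y := y) u h1 h3]
      exact hb i (mem_erase.mpr ⟨h2, hi⟩) j (mem_erase.mpr ⟨h4, hj⟩)
    have htwin : ∀ j ∈ V, j ≠ x → j ≠ y → bb A u x j = bb A u y j := by
      intro j hj h1 h2
      have := hb x hxE j (mem_erase.mpr ⟨h2, hj⟩)
      rw [bb_contract_x hu.2 h1] at this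
      exact CharTwo.add_eq_zero.mp this
    refine ⟨u, hu.1, hpair, hout, htwin, ?_⟩
    intro q hq
    have hd := DD_diff V A c (ins p x y) q (ins_injOn hp) hq u
    have hz : ∑ i ∈ V, ∑ j ∈ V, (if ins p x y j < ins p x y i ∧ q i < q j then bb A u i j else 0)
        = ∑ j ∈ V, if btw q x j y then bb A u x j else 0 := by
      rw [sum_split hx hy hxy, sum_split hx hy hxy, sum_split hx hy hxy]
      have e0 : ∀ i ∈ (V.erase y).erase x, ∑ j ∈ V,
          (if ins p x y j < ins p x y i ∧ q i < q j then bb A u i j else 0)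
          = (if ins p x y y < ins p x y i ∧ q i < q y then bb A u i y else 0)
            + (if ins p x y x < ins p x y i ∧ q i < q x then bb A u i x else 0) := by
        intro i hi
        obtain ⟨hix, hiy, hiV⟩ := mem_V0.mp hi
        rw [sum_split hx hy hxy]
        have : ∑ j ∈ (V.erase y).erase x,
            (if ins p x y j < ins p x y i ∧ q i < q j then bb A u i j else 0) = 0 := by
          refine sum_eq_zero fun j hj => ?_
          obtain ⟨hjx, hjy, hjV⟩ := mem_V0.mp hj
          rw [hout i hiV j hjV hix hiy hjx hjy, ite_self]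
        rw [this, add_zero]
      rw [sum_congr rfl e0, sum_split hx hy hxy (fun j => if btw q x j y then bb A u x j else 0),
        if_neg not_btw_right, if_neg not_btw_left, bb_self, bb_self, bb_comm A u y x, hpair]
      simp only [ite_self, zero_add]
      rw [← sum_add_distrib, ← sum_add_distrib]
      refine sum_congr rfl fun j hj => ?_
      obtain ⟨hjx, hjy, hjV⟩ := mem_V0.mp hj
      rw [bb_comm A u j y, bb_comm A u j x, ← htwin j hjV hjx hjy, ins_y, ins_ne hjy, ins_ne hxy]
      have hne : p j ≠ p x := fun h =>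
        hjx (hp (mem_coe.mpr (mem_erase.mpr ⟨hjy, hjV⟩)) (mem_coe.mpr hxE) h)
      have hqx : q j ≠ q x := fun h => hjx (hq hjV hx h)
      have hqy : q j ≠ q y := fun h => hjy (hq hjV hy h)
      by_cases hbt : btw q x j y
      · rw [if_pos hbt]
        unfold btw at hbt
        split_ifs <;> first | (exfalso; omega) | simp [z2_add_self]
      · rw [if_neg hbt]
        unfold btw at hbt
        split_ifs <;> first | (exfalso; omega) | simp [z2_add_self]
    rw [hz, hD1] at hd
    have h1 : DD V A c q u = 1 + (1 + DD V A c q u) := by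
      rw [← add_assoc, z2_add_self, zero_add]
    rw [h1, hd]

end Pool.Agent.AffGeo
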