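import Pool.Agent.Lib_MP_801c1a_aff.Main

/-!
Every pure system that satisfies its necessary condition is solvable.
-/

set_option autoImplicit false
set_option linter.unusedSectionVars false

namespace Pool.Agent.AffGeo

open Finset

variable {α : Type*} [DecidableEq α] [Fintype α]

lemma Sys.mono {V : Finset α} {A : α → α → ZMod 2} {U U' : Submodule (ZMod 2) (α → ZMod 2)}
    (hS : Sys V A U) (h : U' ≤ U) : Sys V A U' :=
  ⟨hS.diag, hS.row, fun u hu => hS.col u (h hu)⟩

theorem solvable : ∀ (V : Finset α) (A : α → α → ZMod 2)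
    (U : Submodule (ZMod 2) (α → ZMod 2)) (c : α → ZMod 2),
    Sys V A U → HK V A U c → Sol V A U c := by
  classical
  intro V A U c
  induction h : V.card + Module.finrank (ZMod 2) U using Nat.strong_induction_on
    generalizing V A U c with
  | _ N IH =>
  intro hS hHK
  by_contra hns
  -- the two induction hypotheses
  have IHU : ∀ U' : Submodule (ZMod 2) (α → ZMod 2), U' < U → HK V A U' c → Sol V A U' c := by
    intro U' hlt hHK'
    have := Submodule.finrank_lt_finrank_of_lt hlt
    exact IH _ (by omega) V A U' c rfl (hS.mono hlt.le) hHK'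
  have hfun := exists_order_of_functional hHK hns IHU
  have hobs1 : ∀ x ∈ V, ∀ y ∈ V, x ≠ y → A y x = 1 → ∃ u, Obs V A U c x y u := by
    intro x hx y hy hxy hA
    refine exists_obs_of_arc hx hy hxy hA c (fun hH => ?_) hns
    have h1 : (V.erase y).card < V.card := card_erase_lt_of_mem hy
    have h2 : Module.finrank (ZMod 2) (cU A U x y) ≤ Module.finrank (ZMod 2) U :=
      Submodule.finrank_mono (cU_le A U x y)
    exact IH _ (by omega) _ _ _ _ rfl (hS.contract hx hy hxy hA) hH
  have hobs : ∀ x ∈ V, ∀ y ∈ V, x ≠ y → (A x y = 1 ∨ A y x = 1) → ∃ u, Obs V A U c x y u := by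
    intro x hx y hy hxy hA
    rcases hA with hA | hA
    · obtain ⟨u, hu⟩ := hobs1 y hy x hx hxy.symm hA
      exact ⟨u, hu.symm⟩
    · exact hobs1 x hx y hy hxy hA
  -- an order
  obtain ⟨p₀, hp₀⟩ : ∃ p : α → ℕ, Set.InjOn p V :=
    ⟨fun a => (Fintype.equivFin α a).val, fun a _ b _ hab => by
      have := Fin.val_injective hab
      exact (Fintype.equivFin α).injective this⟩
  -- no functional without weights
  have hK0 : ∀ u ∈ U, (∀ i ∈ V, ∀ j ∈ V, bb A u i j = 0) → u = 0 := by
    intro u hu hb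
    by_contra hne
    obtain ⟨a, ha⟩ := Function.ne_iff.mp hne
    obtain ⟨p, hp, hpD⟩ := hfun (LinearMap.proj a) ⟨u, hu, ha⟩
    have h1 := hpD u hu
    rw [hHK u hu hb p hp] at h1
    exact ha h1.symm
  let adj : α → α → Prop := fun x y => ∃ u ∈ U, bb A u x y = 1
  let B : Finset α := V.filter fun x => ∃ y ∈ V, adj x y
  let G : α → Finset α := fun x => V.filter fun y => adj x y
  have hBmem : ∀ x, x ∈ B ↔ x ∈ V ∧ ∃ y ∈ V, adj x y := fun x => by simp only [B, mem_filter]
  have hGmem : ∀ x y, y ∈ G x ↔ y ∈ V ∧ adj x y := fun x y => by simp only [G, mem_filter]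
  have hnadj : ∀ x y, ¬ adj x y → ∀ u ∈ U, bb A u x y = 0 := by
    intro x y hxy u hu
    exact (z2_cases _).resolve_right fun h' => hxy ⟨u, hu, h'⟩
  have hadjsymm : ∀ x y, adj x y → adj y x := by
    rintro x y ⟨u, hu, hb⟩
    exact ⟨u, hu, by rw [bb_comm]; exact hb⟩
  have hadjne : ∀ x y, adj x y → x ≠ y := by
    rintro x y ⟨u, hu, hb⟩ rfl
    rw [bb_self] at hb; exact absurd hb (by decide)
  have harc : ∀ x y, adj x y → A x y = 1 ∨ A y x = 1 := by
    rintro x y ⟨u, hu, hb⟩
    rcases z2_cases (A x y) with h1 | h1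
    · rcases z2_cases (A y x) with h2 | h2
      · unfold bb at hb; rw [h1, h2] at hb; simp at hb
      · exact Or.inr h2
    · exact Or.inl h1
  have hxG : ∀ x, x ∉ G x := fun x hx => hadjne x x ((hGmem x x).mp hx).2 rfl
  have hGV : ∀ x, G x ⊆ V := fun x => filter_subset _ _
  have hG : ∀ x, ∀ j ∈ V, j ∉ G x → ∀ u ∈ U, bb A u x j = 0 := fun x j hj hjG =>
    hnadj x j fun h' => hjG ((hGmem x j).mpr ⟨hj, h'⟩)
  have hG' : ∀ x, ∀ j ∈ G x, ∃ u ∈ U, bb A u x j = 1 := fun x j hj => ((hGmem x j).mp hj).2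
  have hGne : ∀ x ∈ B, (G x).Nonempty := by
    intro x hx
    obtain ⟨_, y, hy, hxy⟩ := (hBmem x).mp hx
    exact ⟨y, (hGmem x y).mpr ⟨hy, hxy⟩⟩
  have hBV : B ⊆ V := filter_subset _ _
  have hf0 : ∀ x ∈ B, ∃ f : α → α → ZMod 2, ∀ y ∈ G x, Obs V A U c x y (f y) := by
    intro x hx
    have : ∀ y, ∃ u, y ∈ G x → Obs V A U c x y u := by
      intro y
      by_cases hy : y ∈ G x
      · obtain ⟨hyV, hadj⟩ := (hGmem x y).mp hy
        obtain ⟨u, hu⟩ := hobs x (hBV hx) y hyV (hadjne x y hadj) (harc x y hadj)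
        exact ⟨u, fun _ => hu⟩
      · exact ⟨0, fun h' => absurd h' hy⟩
    choose f hf using this
    exact ⟨f, hf⟩
  choose! f hf using hf0
  have hloc := fun x (hx : x ∈ B) => local_structure hS hfun (hBV hx) (G x) (hGV x) (hxG x)
    (hG x) (hG' x) (hGne x hx) (f x) (hf x hx)
  -- `B` is complete
  have hcomplete : ∀ x ∈ B, ∀ y ∈ B, x ≠ y → y ∈ G x := by
    intro x hx y hy hxy
    by_contra hyG
    obtain ⟨hyV, z, hz, u, hu, hb⟩ := (hBmem y).mp hy
    rw [(hloc x hx).1 y hyV z hz ⟨hxy.symm, hyG⟩ u hu] at hb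
    exact absurd hb (by decide)
  have hGB : ∀ x ∈ B, ∀ y ∈ G x, y ∈ B := by
    intro x hx y hy
    obtain ⟨hyV, hadj⟩ := (hGmem x y).mp hy
    exact (hBmem y).mpr ⟨hyV, x, hBV hx, hadjsymm x y hadj⟩
  have hcomp : ∀ x ∈ B, ∀ y ∈ B, x ≠ y → ∃ u ∈ U, bb A u x y = 1 := fun x hx y hy hxy =>
    hG' x y (hcomplete x hx y hy hxy)
  have hzero : ∀ i ∈ V, i ∉ B → ∀ j ∈ V, ∀ u ∈ U, bb A u i j = 0 := by
    intro i hi hiB j hj
    exact hnadj i j fun h' => hiB ((hBmem i).mpr ⟨hi, j, hj, h'⟩)
  -- vertices outside `B` have no arcs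
  have hiso : ∀ i ∈ V, i ∉ B → ∀ j ∈ V, A j i = 0 := by
    intro i hi hiB j hj
    by_cases hij : j = i
    · rw [hij]; exact hS.diag i hi
    by_contra hne
    obtain ⟨u, hu⟩ := hobs j hj i hi hij (Or.inl (z2_ne_zero hne))
    have hu0 : u = 0 := by
      refine hK0 u hu.mem fun a ha b hb => ?_
      by_cases hai : a = i
      · rw [hai]; exact hzero i hi hiB b hb u hu.mem
      by_cases hbi : b = i
      · rw [hbi, bb_comm]; exact hzero i hi hiB a ha u hu.mem
      by_cases haj : a = j
      · by_cases hbj : b = j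
        · rw [haj, hbj, bb_self]
        · rw [haj, hu.twin b hb hbj hbi]
          exact hzero i hi hiB b hb u hu.mem
      · by_cases hbj : b = j
        · rw [hbj, bb_comm, hu.twin a ha haj hai]
          exact hzero i hi hiB a ha u hu.mem
        · exact hu.out a ha b hb haj hai hbj hbi
    have h1 := hu.val p₀ hp₀
    rw [hu0] at h1
    have h2 : DD V A c p₀ 0 = 0 := by unfold DD; simp
    have h3 : ∑ k ∈ V, (if btw p₀ j k i then bb A 0 j k else 0) = 0 := by
      refine sum_eq_zero fun k _ => ?_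
      unfold bb; simp
    rw [h2, h3] at h1
    exact absurd h1 (by decide)
  have hrow : ∀ x ∈ B, ∑ y ∈ B, A x y = 0 := by
    intro x hx
    rw [← hS.row x (hBV hx)]
    refine sum_subset hBV fun y hy hyB => hiso y hy hyB x (hBV hx)
  -- the weights of the obstructions
  have hone : ∀ x ∈ B, ∀ y ∈ G x, ∀ z ∈ G x, y ≠ z → bb A (f x y) y z = 1 := by
    intro x hx y hy z hz hyz
    have h2 := (hloc x hx).2.1 y hy z hz hyz
    rcases (hloc x hx).2.2.1 y hy z hz (hcomp y (hGB x hx y hy) z (hGB x hx z hz) hyz) hyz with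
      h3 | h3
    · exact h3
    · rw [h2]; exact h3
  have hone' : ∀ x ∈ B, ∀ y ∈ G x, ∀ z ∈ G x, y ≠ z → bb A (f x y) x z = 1 := by
    intro x hx y hy z hz hyz
    rw [(hf x hx y hy).twin z (hGV x hz) (fun h' => hxG x (h' ▸ hz)) hyz.symm]
    exact hone x hx y hy z hz hyz
  have hT : ∀ u ∈ U, ∀ a ∈ B, ∀ b ∈ B, ∀ d ∈ B, a ≠ b → b ≠ d → a ≠ d →
      bb A u a b + bb A u b d + bb A u a d = 0 := by
    intro u hu a ha b hb d hd hab hbd had
    have hbG := hcomplete a ha b hb hab
    have hdG := hcomplete a ha d hd had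
    have hall : ∀ v ∈ Submodule.span (ZMod 2) (f a '' (G a : Set α)),
        bb A v a b + bb A v b d + bb A v a d = 0 := by
      intro v hv
      induction hv using Submodule.span_induction with
      | mem v hv =>
        obtain ⟨y, hy, rfl⟩ := hv
        have hyG : y ∈ G a := mem_coe.mp hy
        by_cases hyb : y = b
        · subst hyb
          rw [(hf a ha y hyG).pair, hone a ha y hyG d hdG hbd, hone' a ha y hyG d hdG hbd]
          decide
        by_cases hyd : y = d
        · subst hyd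
          rw [(hf a ha y hyG).pair, bb_comm A _ b y, hone a ha y hyG b hbG hbd.symm,
            hone' a ha y hyG b hbG hbd.symm]
          decide
        rw [hone' a ha y hyG b hbG hyb, hone' a ha y hyG d hdG hyd,
          (hf a ha y hyG).out b (hBV hb) d (hBV hd) hab.symm (fun h' => hyb h'.symm)
            had.symm (fun h' => hyd h'.symm)]
        decide
      | zero => unfold bb; simp
      | add v w _ _ hv hw =>
        rw [bb_add, bb_add, bb_add]
        have : bb A v a b + bb A w a b + (bb A v b d + bb A w b d) + (bb A v a d + bb A w a d)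
            = (bb A v a b + bb A v b d + bb A v a d)
              + (bb A w a b + bb A w b d + bb A w a d) := by ring
        rw [this, hv, hw, add_zero]
      | smul r v _ hv =>
        rw [bb_smul, bb_smul, bb_smul, ← mul_add, ← mul_add, hv, mul_zero]
    exact hall u ((hloc a ha).2.2.2 hu)
  -- `B` is nonempty
  have hBne : B.Nonempty := by
    by_contra hBe
    rw [not_nonempty_iff_eq_empty] at hBe
    refine hns ⟨p₀, hp₀, fun u hu => ?_⟩
    have : u = 0 := hK0 u hu fun i hi j hj => hzero i hi (by rw [hBe]; simp) j hj u hu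
    rw [this]; unfold DD; simp
  obtain ⟨x, hx⟩ := hBne
  have hBeq : B = insert x (G x) := by
    ext y
    rw [mem_insert]
    constructor
    · intro hy
      by_cases hyx : y = x
      · exact Or.inl hyx
      · exact Or.inr (hcomplete x hx y hy (fun h' => hyx h'.symm))
    · rintro (rfl | hy)
      · exact hx
      · exact hGB x hx y hy
  obtain ⟨q, hq, hqx, _⟩ := exists_rotate hS c p₀ hp₀ (hBV hx)
  obtain ⟨y₁, hy₁, y₂, hy₂, hy12, _, _⟩ := two_neighbours hS (hBV hx) (G x) (hGV x) (hxG x) (hG x)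
    (hG' x) (hGne x hx) (f x) (hf x hx) q hq hqx
  have hcard3 : 2 ≤ (G x).card := by
    have : ({y₁, y₂} : Finset α) ⊆ G x := by
      intro z hz
      rw [mem_insert, mem_singleton] at hz
      rcases hz with rfl | rfl
      · exact hy₁
      · exact hy₂
    have h1 := card_le_card this
    rw [card_pair hy12] at h1
    exact h1
  have hcardB : B.card = (G x).card + 1 := by
    rw [hBeq, card_insert_of_notMem (hxG x)]
  have hodd : ((((G x).card - 1 : ℕ)) : ZMod 2) = 0 := by
    have hr := bb_row hS (hf x hx y₁ hy₁).mem (hBV hx)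
    have e1 : ∑ j ∈ V, bb A (f x y₁) x j = ∑ j ∈ G x, bb A (f x y₁) x j := by
      symm
      refine sum_subset (hGV x) fun j hj hjG => hG x j hj hjG _ (hf x hx y₁ hy₁).mem
    rw [e1, ← add_sum_erase (G x) _ hy₁, (hf x hx y₁ hy₁).pair, zero_add] at hr
    have e2 : ∑ j ∈ (G x).erase y₁, bb A (f x y₁) x j = ∑ j ∈ (G x).erase y₁, (1 : ZMod 2) := by
      refine sum_congr rfl fun j hj => ?_
      rw [mem_erase] at hj
      exact hone' x hx y₁ hy₁ j hj.2 (fun h' => hj.1 h'.symm)
    rw [e2, sum_const, card_erase_of_mem hy₁, nsmul_eq_mul, mul_one] at hr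
    exact hr
  have hev : Even ((G x).card - 1) := by
    rw [← ZMod.natCast_eq_zero_iff_even]
    exact hodd
  have hevB : Even B.card := by
    rw [hcardB]
    obtain ⟨k, hk⟩ := hev
    exact ⟨k + 1, by omega⟩
  have h4 : 4 ≤ B.card := by
    obtain ⟨k, hk⟩ := hevB
    omega
  exact final_contra B A U (fun x hx => hS.diag x (hBV hx)) hrow hcomp hT hevB h4

end Pool.Agent.AffGeo
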